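import Mathlib

/-!
# Definitions for profinite groups with the maximum condition for closed subgroups
-/

namespace Pool.Agent.H61.PF

open Subgroup

/-- The maximum condition for closed subgroups of a topological group, for ascending chains. -/
def MaxClosed (G : Type*) [Group G] [TopologicalSpace G] : Prop :=
  ∀ H : ℕ → Subgroup G, (∀ n, IsClosed (H n : Set G)) → Monotone H → ∃ n, ∀ m, n ≤ m → H n = H m

/-- A subgroup is topologically generated by the finite set `T`. -/
def TopGen {G : Type*} [Group G] [TopologicalSpace G] (H : Subgroup G) (T : Set G) : Prop :=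
  T ⊆ H ∧ ∀ K : Subgroup G, IsClosed (K : Set G) → T ⊆ K → H ≤ K

/-- A subgroup `H` is pro-`p`: in every finite quotient `G / U`, `U` an open normal subgroup, the image
of every element of `H` has order a power of `p`. -/
def ProP {G : Type*} [Group G] [TopologicalSpace G] (p : ℕ) (H : Subgroup G) : Prop :=
  ∀ (U : Subgroup G) [U.Normal], IsOpen (U : Set G) → ∀ x ∈ H, ∃ k : ℕ, x ^ p ^ k ∈ U

/-- The structural description: `G` has an open subgroup which is the product of finitely many
closed normal subgroups `P p` of `G`, one for each prime `p` of a finite set `S`, which commute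
elementwise; `P p` is a pro-`p` group and satisfies the maximum condition for closed subgroups. -/
def Structure (G : Type*) [Group G] [TopologicalSpace G] : Prop :=
  ∃ (S : Finset ℕ) (P : ℕ → Subgroup G), (∀ p ∈ S, p.Prime) ∧
    (∀ p ∈ S, (P p).Normal ∧ IsClosed (P p : Set G) ∧ ProP p (P p) ∧ MaxClosed (P p)) ∧
    (∀ p ∈ S, ∀ q ∈ S, p ≠ q → ∀ x ∈ P p, ∀ y ∈ P q, x * y = y * x) ∧
    IsOpen ((⨆ p ∈ S, P p : Subgroup G) : Set G)

/-- The Sylow condition: only finitely many primes divide the order of `G` (that is, the index of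
an open normal subgroup), and every closed pro-`p` subgroup of `G`, for every prime `p`, is
topologically finitely generated. -/
def SylowCondition (G : Type*) [Group G] [TopologicalSpace G] : Prop :=
  (∃ S : Finset ℕ, ∀ (U : Subgroup G) [U.Normal],
    IsOpen (U : Set G) → ∀ r : ℕ, r.Prime → r ∣ Nat.card (G ⧸ U) → r ∈ S) ∧
  ∀ p : ℕ, p.Prime → ∀ H : Subgroup G, IsClosed (H : Set G) → ProP p H →
    ∃ T : Set G, T.Finite ∧ TopGen H T

/-- The subgroups `A` of `G` with a finite series `⊥ = A_0 ≤ A_1 ≤ ... ≤ A_n = A` of closed subgroups,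
each normal in the next one, whose factors are procyclic pro-`p` groups (`p` may vary): the factor
`A / B` is topologically generated by (the image of) one element `t`, and it is pro-`p`. -/
inductive PolyPro {G : Type*} [Group G] [TopologicalSpace G] : Subgroup G → Prop
  | bot : PolyPro ⊥
  | step (A B : Subgroup G) (p : ℕ) (t : G) (hp : p.Prime) (hB : PolyPro B)
      (hA : IsClosed (A : Set G)) (hBA : B ≤ A) (hn : ∀ x ∈ A, ∀ y ∈ B, x * y * x⁻¹ ∈ B)
      (ht : t ∈ A) (hgen : ∀ L : Subgroup G, IsClosed (L : Set G) → t ∈ L → B ≤ L → A ≤ L)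
      (hpro : ∀ (V : Subgroup G) [V.Normal], IsOpen (V : Set G) → ∀ x ∈ A,
        ∃ k : ℕ, x ^ p ^ k ∈ B ⊔ V) : PolyPro A

end Pool.Agent.H61.PF
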