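import Mathlib

/-!
# Glauberman's lemma for a solvable group acting coprimely; invariant Sylow subgroups
-/

namespace Pool.Agent.H61.PF

open Subgroup
open scoped Pointwise

/-- A nontrivial finite solvable group has a proper normal subgroup whose quotient is a `p`-group. -/
lemma exists_normal_pquot {H : Type*} [Group H] [Finite H] [Group.IsSolvable H] [Nontrivial H] :
    ∃ (p : ℕ) (_ : p.Prime) (M : Subgroup H), M.Normal ∧ M < ⊤ ∧ p ∣ Nat.card H ∧
      ∀ h : H, ∃ k : ℕ, h ^ p ^ k ∈ M := by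
  classical
  have hlt : commutator H < ⊤ := Group.IsSolvable.commutator_lt_top_of_nontrivial H
  have hcard : (commutator H).index ≠ 1 := by
    intro h
    exact hlt.ne (Subgroup.index_eq_one.1 h)
  obtain ⟨p, hp, hpd⟩ := Nat.exists_prime_and_dvd hcard
  have : Fact p.Prime := ⟨hp⟩
  let M : Subgroup H :=
    { carrier := {h | ∃ m : ℕ, ¬ p ∣ m ∧ h ^ m ∈ commutator H}
      one_mem' := ⟨1, hp.one_lt.ne' ∘ Nat.dvd_one.1, by rw [one_pow]; exact one_mem _⟩
      inv_mem' := by
        rintro h ⟨m, hm, hmm⟩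
        exact ⟨m, hm, by rw [inv_pow]; exact inv_mem hmm⟩
      mul_mem' := by
        rintro a b ⟨m, hm, hmm⟩ ⟨n, hn, hnn⟩
        refine ⟨m * n, fun h => ((Nat.Prime.dvd_mul hp).1 h).elim hm hn, ?_⟩
        rw [← QuotientGroup.eq_one_iff (N := commutator H)] at hmm hnn ⊢
        have h1 : ((a * b : H) ^ (m * n) : H) = (((a * b) ^ (m * n) : H)) := rfl
        have hcomm : ∀ x y : H ⧸ commutator H, x * y = y * x := fun x y =>
          mul_comm (G := Abelianization H) x y
        have h2 : (((a * b) ^ (m * n) : H) : H ⧸ commutator H) =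
            ((a : H ⧸ commutator H) * (b : H ⧸ commutator H)) ^ (m * n) := by
          rw [QuotientGroup.mk_pow, QuotientGroup.mk_mul]
        rw [h2, (show Commute (a : H ⧸ commutator H) b from hcomm _ _).mul_pow]
        rw [QuotientGroup.mk_pow] at hmm hnn
        rw [pow_mul, hmm, one_pow, one_mul, mul_comm, pow_mul, hnn, one_pow] }
  have hcM : commutator H ≤ M := fun h hh => ⟨1, hp.one_lt.ne' ∘ Nat.dvd_one.1, by rwa [pow_one]⟩
  refine ⟨p, hp, M, ?_, ?_, hpd.trans (Subgroup.index_dvd_card _), ?_⟩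
  · constructor
    intro n hn g
    have : g * n * g⁻¹ * n⁻¹ ∈ M := hcM (Subgroup.commutator_mem_commutator trivial trivial)
    have h2 := M.mul_mem this hn
    simpa using h2
  · rw [lt_top_iff_ne_top]
    intro htop
    have hpd' : p ∣ Nat.card (H ⧸ commutator H) := by rwa [← Subgroup.index_eq_card]
    obtain ⟨x, hx⟩ := exists_prime_orderOf_dvd_card' p hpd'
    obtain ⟨h, rfl⟩ := QuotientGroup.mk_surjective x
    have hh : h ∈ M := by rw [htop]; trivial
    obtain ⟨m, hm, hmm⟩ := hh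
    rw [← QuotientGroup.eq_one_iff, QuotientGroup.mk_pow] at hmm
    have := orderOf_dvd_of_pow_eq_one hmm
    rw [hx] at this
    exact hm this
  · intro h
    obtain ⟨k, m, hm, hkm⟩ := Nat.exists_eq_pow_mul_and_not_dvd (n := orderOf h)
      (orderOf_pos h).ne' p hp.ne_one
    refine ⟨k, m, hm, ?_⟩
    rw [← pow_mul, ← hkm, pow_orderOf_eq_one]
    exact one_mem _

section

variable {Γ L X : Type*} [Group Γ] [Finite Γ] [Group L] [Finite L] [Finite X]
  [MulDistribMulAction Γ L] [MulAction Γ X] [MulAction L X]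

/-- `H`-fixed elements of `L`. -/
def fixL (H : Subgroup Γ) : Subgroup L where
  carrier := {l | ∀ h ∈ H, h • l = l}
  one_mem' := fun h _ => smul_one h
  mul_mem' := by
    intro a b ha hb h hh
    rw [smul_mul', ha h hh, hb h hh]
  inv_mem' := by
    intro a ha h hh
    rw [smul_inv', ha h hh]

/-- fixed point count for a `p`-subgroup acting on an invariant set. -/
lemma exists_fixed_of_pgroup {p : ℕ} [Fact p.Prime] {Y : Type*} [Finite Y] [MulAction Γ Y]
    (P : Subgroup Γ) (hP : IsPGroup p P) (S : Set Y) (hS : ∀ g ∈ P, ∀ y ∈ S, g • y ∈ S)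
    (hcard : ¬ p ∣ Nat.card S) : ∃ y ∈ S, ∀ g ∈ P, g • y = y := by
  let _ : MulAction P S :=
    { smul := fun g y => ⟨(g : Γ) • (y : Y), hS g g.2 y y.2⟩
      one_smul := fun y => Subtype.ext (one_smul Γ (y : Y))
      mul_smul := fun g h y => Subtype.ext (mul_smul (g : Γ) (h : Γ) (y : Y)) }
  obtain ⟨y, hy⟩ := hP.nonempty_fixed_point_of_prime_not_dvd_card S hcard
  exact ⟨y, y.2, fun g hg => congrArg Subtype.val (hy ⟨g, hg⟩)⟩

/-- Glauberman's lemma. -/
theorem glauberman (hcompat : ∀ (g : Γ) (l : L) (x : X), g • (l • x) = (g • l) • (g • x))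
    (htrans : ∀ x y : X, ∃ l : L, l • x = y) (hne : Nonempty X) :
    ∀ (n : ℕ) (H : Subgroup Γ), Nat.card H = n → Group.IsSolvable H →
      Nat.Coprime (Nat.card H) (Nat.card L) →
      (∃ x : X, ∀ h ∈ H, h • x = x) ∧
      (∀ x y : X, (∀ h ∈ H, h • x = x) → (∀ h ∈ H, h • y = y) →
        ∃ l : L, (∀ h ∈ H, h • l = l) ∧ l • x = y) := by
  intro n
  induction n using Nat.strong_induction_on with
  | _ n ih =>
  intro H hHn hsol hcop
  by_cases hH : H = ⊥
  · subst hH
    obtain ⟨x⟩ := hne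
    refine ⟨⟨x, ?_⟩, ?_⟩
    · intro h hh
      rw [Subgroup.mem_bot.1 hh, one_smul]
    · intro x y _ _
      obtain ⟨l, hl⟩ := htrans x y
      refine ⟨l, ?_, hl⟩
      intro h hh
      rw [Subgroup.mem_bot.1 hh, one_smul]
  have hnt : Nontrivial H := (Subgroup.nontrivial_iff_ne_bot H).2 hH
  obtain ⟨p, hp, M', hM'n, hM'lt, hpd, hM'p⟩ := exists_normal_pquot (H := H)
  have : Fact p.Prime := ⟨hp⟩
  have hpL : ¬ p ∣ Nat.card L := by
    intro h
    have := Nat.dvd_gcd hpd h
    rw [hcop] at this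
    exact hp.one_lt.ne' (Nat.dvd_one.1 this)
  let M : Subgroup Γ := M'.map H.subtype
  have hMH : M ≤ H := Subgroup.map_subtype_le M'
  have hMn : ∀ h ∈ H, ∀ m ∈ M, h * m * h⁻¹ ∈ M := by
    rintro h hh m ⟨m', hm', rfl⟩
    exact ⟨⟨h, hh⟩ * m' * ⟨h, hh⟩⁻¹, hM'n.conj_mem m' hm' ⟨h, hh⟩, rfl⟩
  have hcardM : Nat.card M = Nat.card M' :=
    Nat.card_congr (M'.equivMapOfInjective H.subtype H.subtype_injective).toEquiv.symm
  have hMdvd : Nat.card M ∣ Nat.card H := Subgroup.card_dvd_of_le hMH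
  have hMlt : Nat.card M < n := by
    rw [← hHn, hcardM]
    have h1 : Nat.card M' ∣ Nat.card H := Subgroup.card_subgroup_dvd_card M'
    refine lt_of_le_of_ne (Nat.le_of_dvd Nat.card_pos h1) ?_
    intro h
    exact hM'lt.ne (Subgroup.eq_top_of_card_eq M' h)
  have hMsol : Group.IsSolvable M := by
    exact Group.isSolvable_of_surjective
      (f := (M'.equivMapOfInjective H.subtype H.subtype_injective).toMonoidHom)
      (M'.equivMapOfInjective H.subtype H.subtype_injective).surjective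
  obtain ⟨⟨x0, hx0⟩, htr⟩ := ih _ hMlt M rfl hMsol (Nat.Coprime.coprime_dvd_left hMdvd hcop)
  -- a Sylow p-subgroup of H, together with M it generates H
  obtain ⟨P'⟩ : Nonempty (Sylow p H) := inferInstance
  let P : Subgroup Γ := (P' : Subgroup H).map H.subtype
  have hPH : P ≤ H := Subgroup.map_subtype_le _
  have hPp : IsPGroup p P := P'.2.map H.subtype
  have hHMP : ∀ h ∈ H, ∃ m ∈ M, ∃ y ∈ P, h = m * y := by
    have hsup : M' ⊔ (P' : Subgroup H) = ⊤ := by
      have hidx : (M' ⊔ (P' : Subgroup H)).index = 1 := by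
        have h1 : (M' ⊔ (P' : Subgroup H)).index ∣ (P' : Subgroup H).index :=
          Subgroup.index_dvd_of_le le_sup_right
        have h2 : (M' ⊔ (P' : Subgroup H)).index ∣ M'.index := Subgroup.index_dvd_of_le le_sup_left
        have hGA : IsPGroup p (H ⧸ M') := by
          intro g
          obtain ⟨g, rfl⟩ := QuotientGroup.mk'_surjective M' g
          obtain ⟨k, hk⟩ := hM'p g
          exact ⟨k, by rw [← map_pow]; exact (QuotientGroup.eq_one_iff _).2 hk⟩
        obtain ⟨n, hn⟩ := hGA.exists_card_eq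
        rw [← Subgroup.index_eq_card] at hn
        rw [hn] at h2
        have h3 : Nat.Coprime (P' : Subgroup H).index (p ^ n) :=
          (Nat.Coprime.pow_left n ((Nat.Prime.coprime_iff_not_dvd hp).2 P'.not_dvd_index)).symm
        exact Nat.eq_one_of_dvd_coprimes h3 h1 h2
      exact Subgroup.index_eq_one.1 hidx
    intro h hh
    have hg : (⟨h, hh⟩ : H) ∈ M' ⊔ (P' : Subgroup H) := by rw [hsup]; trivial
    rw [Subgroup.mem_sup_of_normal_left] at hg
    obtain ⟨a, ha, x, hx, hax⟩ := hg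
    exact ⟨a, ⟨a, ha, rfl⟩, x, ⟨x, hx, rfl⟩, (congrArg Subtype.val hax).symm⟩
  -- fixed points of M
  let S : Set X := {x | ∀ h ∈ M, h • x = x}
  let C : Subgroup L := fixL M
  have hSinv : ∀ g ∈ H, ∀ y ∈ S, g • y ∈ S := by
    intro g hg y hy m hm
    have h1 : g⁻¹ * m * g ∈ M := by
      have := hMn g⁻¹ (H.inv_mem hg) m hm
      rwa [inv_inv] at this
    have h2 : m • g • y = g • ((g⁻¹ * m * g) • y) := by
      rw [← mul_smul, ← mul_smul]; congr 1; group
    rw [h2, hy _ h1]
  have hCinv : ∀ g ∈ H, ∀ l ∈ C, g • l ∈ C := by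
    intro g hg l hl m hm
    have h1 : g⁻¹ * m * g ∈ M := by
      have := hMn g⁻¹ (H.inv_mem hg) m hm
      rwa [inv_inv] at this
    have h2 : m • g • l = g • ((g⁻¹ * m * g) • l) := by
      rw [← mul_smul, ← mul_smul]; congr 1; group
    rw [h2, hl _ h1]
  have hCS : ∀ l ∈ C, ∀ x ∈ S, l • x ∈ S := by
    intro l hl x hx m hm
    rw [hcompat, hl m hm, hx m hm]
  -- cosets of stabilizers
  have hcoset : ∀ x ∈ S, ∀ y ∈ S, ¬ p ∣ Nat.card {l : L | l ∈ C ∧ l • x = y} := by
    intro x hx y hy hdvd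
    obtain ⟨l0, hl0, hl0x⟩ := htr x y hx hy
    let St : Subgroup L := C ⊓ MulAction.stabilizer L x
    have heq : Nat.card {l : L | l ∈ C ∧ l • x = y} = Nat.card St := by
      refine Nat.card_congr
        { toFun := fun l => ⟨l0⁻¹ * l.1, C.mul_mem (C.inv_mem hl0) l.2.1, ?_⟩
          invFun := fun l => ⟨l0 * l.1, C.mul_mem hl0 l.2.1, ?_⟩
          left_inv := fun l => Subtype.ext (by simp)
          right_inv := fun l => Subtype.ext (by simp) }
      · show (l0⁻¹ * l.1) • x = x
        rw [mul_smul, l.2.2, ← hl0x, inv_smul_smul]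
      · have h1 : (l.1 : L) • x = x := l.2.2
        rw [mul_smul, h1, hl0x]
    rw [heq] at hdvd
    exact hpL (hdvd.trans (Subgroup.card_subgroup_dvd_card St))
  have hcardS : ¬ p ∣ Nat.card S := by
    -- S is one orbit of C
    intro hdvd
    let _ : MulAction C S :=
      { smul := fun l x => ⟨(l : L) • (x : X), hCS l l.2 x x.2⟩
        one_smul := fun y => Subtype.ext (one_smul L (y : X))
        mul_smul := fun g h y => Subtype.ext (mul_smul (g : L) (h : L) (y : X)) }
    have horb : MulAction.orbit C (⟨x0, hx0⟩ : S) = Set.univ := by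
      ext ⟨y, hy⟩
      simp only [Set.mem_univ, iff_true]
      obtain ⟨l, hl, hly⟩ := htr x0 y hx0 hy
      exact ⟨⟨l, hl⟩, Subtype.ext hly⟩
    have h1 : Nat.card S = Nat.card (MulAction.orbit C (⟨x0, hx0⟩ : S)) := by
      rw [horb]; exact (Nat.card_congr (Equiv.Set.univ _)).symm
    have h2 := MulAction.index_stabilizer C (⟨x0, hx0⟩ : S)
    have h3 : Nat.card (MulAction.orbit C (⟨x0, hx0⟩ : S)) ∣ Nat.card C := by
      rw [Nat.card_coe_set_eq, ← h2]
      exact Subgroup.index_dvd_card _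
    rw [h1] at hdvd
    exact hpL ((hdvd.trans h3).trans (Subgroup.card_subgroup_dvd_card C))
  refine ⟨?_, ?_⟩
  · obtain ⟨y, hyS, hy⟩ := exists_fixed_of_pgroup P hPp S
      (fun g hg y hy => hSinv g (hPH hg) y hy) hcardS
    refine ⟨y, ?_⟩
    intro h hh
    obtain ⟨m, hm, z, hz, rfl⟩ := hHMP h hh
    rw [mul_smul, hy z hz, hyS m hm]
  · intro x y hx hy
    have hxS : x ∈ S := fun m hm => hx m (hMH hm)
    have hyS : y ∈ S := fun m hm => hy m (hMH hm)
    obtain ⟨l, ⟨hlC, hlx⟩, hl⟩ := exists_fixed_of_pgroup (Y := L) P hPp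
      {l : L | l ∈ C ∧ l • x = y} (by
        rintro g hg l ⟨hlC, hlx⟩
        refine ⟨hCinv g (hPH hg) l hlC, ?_⟩
        have := hcompat g l x
        rw [hx g (hPH hg), hlx, hy g (hPH hg)] at this
        exact this.symm) (hcoset x hxS y hyS)
    refine ⟨l, ?_, hlx⟩
    intro h hh
    obtain ⟨m, hm, z, hz, rfl⟩ := hHMP h hh
    rw [mul_smul, hl z hz, hlC m hm]

end

/-- Invariant Sylow subgroups: a solvable subgroup `H` of a finite group `G` whose order is prime to the
order of a normal subgroup `L` normalizes a Sylow `r`-subgroup of `L`. -/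
theorem exists_invariant_sylow {G : Type*} [Group G] [Finite G] (L : Subgroup G) [L.Normal]
    (H : Subgroup G) (hH : Group.IsSolvable H) (hcop : Nat.Coprime (Nat.card H) (Nat.card L))
    (r : ℕ) [Fact r.Prime] :
    ∃ R : Subgroup G, R ≤ L ∧ IsPGroup r R ∧ ¬ r ∣ R.relIndex L ∧
      ∀ h ∈ H, ∀ x ∈ R, h * x * h⁻¹ ∈ R := by
  let H' : Subgroup (ConjAct G) := H.map (ConjAct.toConjAct : G ≃* ConjAct G).toMonoidHom
  have e : H ≃* H' := H.equivMapOfInjective _ (ConjAct.toConjAct : G ≃* ConjAct G).injective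
  have hH' : Group.IsSolvable H' := Group.isSolvable_of_surjective (f := e.toMonoidHom) e.surjective
  have hcard : Nat.card H' = Nat.card H := Nat.card_congr e.toEquiv.symm
  have hfin : Finite (ConjAct G) := Finite.of_equiv G ConjAct.toConjAct.toEquiv
  obtain ⟨⟨P, hP⟩, -⟩ := glauberman (Γ := ConjAct G) (L := L) (X := Sylow r L)
    (by
      intro g l x
      apply Sylow.ext
      show g • (MulAut.conj l • (x : Subgroup L)) = MulAut.conj (g • l) • (g • (x : Subgroup L))
      ext y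
      simp only [Subgroup.mem_pointwise_smul_iff_inv_smul_mem]
      have : (MulAut.conj l)⁻¹ • g⁻¹ • y = g⁻¹ • (MulAut.conj (g • l))⁻¹ • y := by
        simp only [← map_inv, MulAut.smul_def, MulAut.conj_apply, inv_inv, smul_mul', smul_inv',
          inv_smul_smul]
      rw [this])
    (fun x y => MulAction.exists_smul_eq L x y) inferInstance (Nat.card H') H' rfl hH'
    (by rw [hcard]; exact hcop)
  refine ⟨(P : Subgroup L).map L.subtype, Subgroup.map_subtype_le _, P.2.map _, ?_, ?_⟩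
  · have : ((P : Subgroup L).map L.subtype).relIndex L = (P : Subgroup L).index := by
      rw [Subgroup.relIndex, Subgroup.subgroupOf, Subgroup.comap_map_eq_self_of_injective
        L.subtype_injective]
    rw [this]
    exact P.not_dvd_index
  · rintro h hh _ ⟨x, hx, rfl⟩
    have h1 := hP (ConjAct.toConjAct h) ⟨h, hh, rfl⟩
    have h2 : (ConjAct.toConjAct h) • x ∈ (ConjAct.toConjAct h) • (P : Subgroup L) :=
      Subgroup.smul_mem_pointwise_smul _ _ _ hx
    have h3 : ((ConjAct.toConjAct h) • P : Sylow r L) = P := h1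
    have h4 : (ConjAct.toConjAct h) • (P : Subgroup L) = (P : Subgroup L) :=
      congrArg (fun Q : Sylow r L => (Q : Subgroup L)) h3
    rw [h4] at h2
    exact ⟨_, h2, by simp [ConjAct.Subgroup.val_conj_smul, ConjAct.smul_def]⟩

/-- The same for a subgroup `L` normalized by `H`. -/
theorem exists_invariant_sylow' {G : Type*} [Group G] [Finite G] (L : Subgroup G)
    (H : Subgroup G) (hH : Group.IsSolvable H) (hcop : Nat.Coprime (Nat.card H) (Nat.card L))
    (hHL : ∀ h ∈ H, ∀ x ∈ L, h * x * h⁻¹ ∈ L) (r : ℕ) [Fact r.Prime] :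
    ∃ R : Subgroup G, R ≤ L ∧ IsPGroup r R ∧ ¬ r ∣ R.relIndex L ∧
      ∀ h ∈ H, ∀ x ∈ R, h * x * h⁻¹ ∈ R := by
  let N : Subgroup G := Subgroup.normalizer (L : Set G)
  have hLN : L ≤ N := Subgroup.le_normalizer
  have hHN : H ≤ N := by
    intro h hh
    rw [Subgroup.mem_normalizer_iff]
    intro x
    refine ⟨fun hx => hHL h hh x hx, fun hx => ?_⟩
    have := hHL h⁻¹ (H.inv_mem hh) _ hx
    simpa [mul_assoc] using this
  haveI : (L.subgroupOf N).Normal := Subgroup.normal_in_normalizer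
  have hH' : Group.IsSolvable (H.subgroupOf N) :=
    Group.isSolvable_of_surjective (f := (Subgroup.subgroupOfEquivOfLe hHN).symm.toMonoidHom)
      (Subgroup.subgroupOfEquivOfLe hHN).symm.surjective
  have hc1 : Nat.card (H.subgroupOf N) = Nat.card H :=
    Nat.card_congr (Subgroup.subgroupOfEquivOfLe hHN).toEquiv
  have hc2 : Nat.card (L.subgroupOf N) = Nat.card L :=
    Nat.card_congr (Subgroup.subgroupOfEquivOfLe hLN).toEquiv
  obtain ⟨R, hRL, hRp, hRi, hRH⟩ := exists_invariant_sylow (L.subgroupOf N) (H.subgroupOf N) hH'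
    (by rw [hc1, hc2]; exact hcop) r
  refine ⟨R.map N.subtype, ?_, hRp.map _, ?_, ?_⟩
  · rintro _ ⟨x, hx, rfl⟩
    exact hRL hx
  · have h1 : L = (L.subgroupOf N).map N.subtype := by
      rw [Subgroup.subgroupOf_map_subtype, inf_eq_left.2 hLN]
    have h2 : (R.map N.subtype).relIndex L = R.relIndex (L.subgroupOf N) := by
      conv_lhs => rw [h1]
      exact Subgroup.relIndex_map_map_of_injective _ _ N.subtype_injective
    rw [h2]; exact hRi
  · rintro h hh _ ⟨x, hx, rfl⟩
    exact ⟨_, hRH ⟨h, hHN hh⟩ hh x hx, rfl⟩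

end Pool.Agent.H61.PF
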