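import Mathlib

/-!
# Tate's criterion for the existence of a normal `p`-complement (finite groups)

If `N` is a normal subgroup of a finite group `G`, `P` a Sylow `p`-subgroup and all homomorphisms
from `P` to the group of order `p` are trivial on `P ∩ N`, then the elements of `N` of order prime
to `p` are a subgroup.
-/

namespace Pool.Agent.H61.PF

open Subgroup
open scoped Pointwise

/-- In a finite `p`-group a nontrivial normal subgroup contains a central element of order `p`. -/
lemma exists_central {p : ℕ} [Fact p.Prime] {Q : Type*} [Group Q] [Finite Q] (hQ : IsPGroup p Q)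
    (K : Subgroup Q) [K.Normal] (hK : K ≠ ⊥) :
    ∃ z ∈ K, z ∈ Subgroup.center Q ∧ orderOf z = p := by
  have hKp : IsPGroup p K := hQ.to_subgroup K
  have hQ' : IsPGroup p (ConjAct Q) := hQ.of_equiv ConjAct.toConjAct
  have hdvd : p ∣ Nat.card K := by
    obtain ⟨n, hn⟩ := hKp.exists_card_eq
    rw [hn]
    have : n ≠ 0 := by
      rintro rfl
      rw [pow_zero] at hn
      exact hK ((Subgroup.card_eq_one).1 hn)
    exact dvd_pow_self p this
  have h1 : (1 : K) ∈ MulAction.fixedPoints (ConjAct Q) K := by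
    intro g
    ext
    simp [ConjAct.Subgroup.val_conj_smul]
  obtain ⟨b, hb, hb1⟩ := hQ'.exists_fixed_point_of_prime_dvd_card_of_fixed_point K hdvd h1
  -- b is central, nontrivial
  have hbc : (b : Q) ∈ Subgroup.center Q := by
    rw [Subgroup.mem_center_iff]
    intro g
    have := hb (ConjAct.toConjAct g)
    have h2 := congrArg (Subtype.val) this
    rw [ConjAct.Subgroup.val_conj_smul, ConjAct.smul_def] at h2
    simp only [ConjAct.ofConjAct_toConjAct] at h2
    rw [← mul_inv_eq_iff_eq_mul]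
    exact h2
  obtain ⟨k, hk⟩ := (IsPGroup.iff_orderOf.1 hKp) b
  have hk0 : k ≠ 0 := by
    rintro rfl
    rw [pow_zero, orderOf_eq_one_iff] at hk
    exact hb1 hk.symm
  refine ⟨(b : Q) ^ (p ^ (k - 1)), K.pow_mem b.2 _, (Subgroup.center Q).pow_mem hbc _, ?_⟩
  have ho : orderOf (b : Q) = p ^ k := by rw [Subgroup.orderOf_coe]; exact hk
  rw [orderOf_pow_of_dvd (pow_ne_zero _ (Fact.out : p.Prime).ne_zero), ho]
  · obtain ⟨j, rfl⟩ := Nat.exists_eq_succ_of_ne_zero hk0
    rw [Nat.succ_sub_one, Nat.succ_eq_add_one, pow_succ]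
    exact Nat.mul_div_cancel_left _ (pow_pos (Fact.out : p.Prime).pos _)
  · rw [ho]
    exact pow_dvd_pow _ (Nat.sub_le _ _)

/-- A transfer argument: a central subgroup of order `p` of a group `E` which is a retract of a subgroup
of index prime to `p` is a retract of `E`. -/
lemma exists_retract {p : ℕ} [Fact p.Prime] {E : Type*} [Group E] [Finite E] {C : Type*} [CommGroup C]
    (hC : ∀ c : C, c ^ p = 1) (i : C →* E) (hi : ∀ c e, i c * e = e * i c)
    (T : Subgroup E) (hT : ¬ p ∣ T.index) (ρ : T →* C) (hiT : ∀ c, i c ∈ T)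
    (hρ : ∀ c, ρ ⟨i c, hiT c⟩ = c) :
    ∃ τ : E →* C, ∀ c, τ (i c) = c := by
  have hp : p.Prime := Fact.out
  have hcop : Nat.Coprime T.index p := ((Nat.Prime.coprime_iff_not_dvd hp).2 hT).symm
  obtain ⟨k, hk⟩ := Nat.exists_mul_mod_eq_one_of_coprime hcop hp.one_lt
  have hV : ∀ c, MonoidHom.transfer ρ (i c) = c ^ T.index := by
    intro c
    have key : ∀ (k : ℕ) (g₀ : E), g₀⁻¹ * (i c) ^ k * g₀ ∈ T → g₀⁻¹ * (i c) ^ k * g₀ = (i c) ^ k := by
      intro k g₀ _
      rw [← map_pow, mul_assoc, hi, inv_mul_cancel_left]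
    rw [MonoidHom.transfer_eq_pow ρ (i c) key]
    have : (⟨(i c) ^ T.index, MonoidHom.transfer_eq_pow_aux (i c) key⟩ : T) =
        ⟨i c, hiT c⟩ ^ T.index := by
      ext; simp
    rw [this, map_pow, hρ]
  refine ⟨(powMonoidHom k).comp (MonoidHom.transfer ρ), fun c => ?_⟩
  rw [MonoidHom.comp_apply, hV, powMonoidHom_apply, ← pow_mul]
  conv_lhs => rw [← Nat.div_add_mod (T.index * k) p]
  rw [pow_add, pow_mul, hC, one_pow, one_mul, hk.2, pow_one]

/-- Tate's criterion, in the case where `G / N` is a `p`-group. -/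
theorem tate_aux {p : ℕ} [Fact p.Prime] {G : Type*} [Group G] [Finite G] (N : Subgroup G) [N.Normal]
    (hG : ∀ g : G, ∃ k : ℕ, g ^ p ^ k ∈ N) (P : Sylow p G)
    (hN : ∀ f : P →* Multiplicative (ZMod p), ∀ x : P, (x : G) ∈ N → f x = 1) :
    ∃ A : Subgroup G, A.Normal ∧ A ≤ N ∧ ¬ p ∣ Nat.card A ∧ ∀ g : G, ∃ k : ℕ, g ^ p ^ k ∈ A := by
  classical
  have hp : p.Prime := Fact.out
  -- a minimal normal subgroup with `p`-quotient
  let S : Set (Subgroup G) := {A | A.Normal ∧ ∀ g : G, ∃ k : ℕ, g ^ p ^ k ∈ A}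
  have hS : S.Nonempty := ⟨⊤, inferInstance, fun g => ⟨0, trivial⟩⟩
  obtain ⟨A, hA⟩ := (Set.toFinite S).exists_minimal hS
  have hAn : A.Normal := hA.prop.1
  have hAp := hA.prop.2
  have hmin : ∀ B : Subgroup G, B.Normal → (∀ g : G, ∃ k : ℕ, g ^ p ^ k ∈ B) → A ≤ B := by
    intro B hB hBp
    have hBA : (A ⊓ B) ∈ S := by
      refine ⟨inferInstance, fun g => ?_⟩
      obtain ⟨k, hk⟩ := hAp g
      obtain ⟨j, hj⟩ := hBp g
      refine ⟨k + j, ?_, ?_⟩
      · rw [pow_add, pow_mul]; exact A.pow_mem hk _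
      · rw [pow_add, mul_comm, pow_mul]; exact B.pow_mem hj _
    exact le_trans (hA.le_of_le hBA inf_le_left) inf_le_right
  have hAN : A ≤ N := hmin N inferInstance hG
  refine ⟨A, hAn, hAN, ?_, hAp⟩
  intro hdvd
  -- K = P ∩ A is a nontrivial normal subgroup of P
  let K : Subgroup P := A.subgroupOf (P : Subgroup G)
  have hKn : K.Normal := inferInstance
  have hKne : K ≠ ⊥ := by
    obtain ⟨x, hx⟩ := exists_prime_orderOf_dvd_card' p hdvd
    have hxp : IsPGroup p (Subgroup.zpowers (x : G)) := by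
      rw [IsPGroup.iff_card]
      refine ⟨1, ?_⟩
      rw [Nat.card_zpowers, Subgroup.orderOf_coe, hx, pow_one]
    obtain ⟨R, hR⟩ := hxp.exists_le_sylow
    obtain ⟨g, hg⟩ := MulAction.exists_smul_eq G R P
    have hxR : (x : G) ∈ (R : Subgroup G) := hR (Subgroup.mem_zpowers _)
    have hxP : g * x * g⁻¹ ∈ (P : Subgroup G) := by
      have hPR : (P : Subgroup G) = MulAut.conj g • (R : Subgroup G) := by rw [← hg]; rfl
      rw [hPR]
      have : MulAut.conj g • (x : G) ∈ (MulAut.conj g • (R : Subgroup G)) :=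
        Subgroup.smul_mem_pointwise_smul _ _ _ hxR
      simpa using this
    intro hbot
    have hmem : (⟨g * x * g⁻¹, hxP⟩ : P) ∈ K := by
      rw [Subgroup.mem_subgroupOf]
      exact hAn.conj_mem _ x.2 g
    rw [hbot, Subgroup.mem_bot] at hmem
    have h1 := congrArg Subtype.val hmem
    simp only [OneMemClass.coe_one] at h1
    have hx1 : (x : G) = 1 := by
      have := mul_inv_eq_one.1 h1
      simpa using this
    have : orderOf x = 1 := by
      rw [orderOf_eq_one_iff]; exact Subtype.ext hx1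
    rw [this] at hx
    exact hp.one_lt.ne hx
  -- a maximal P-normal proper subgroup of K
  let S' : Set (Subgroup P) := {B | B.Normal ∧ B < K}
  have hS' : S'.Nonempty := ⟨⊥, inferInstance, bot_lt_iff_ne_bot.2 hKne⟩
  obtain ⟨K0, hK0⟩ := (Set.toFinite S').exists_maximal hS'
  have hK0n : K0.Normal := hK0.prop.1
  have hK0lt : K0 < K := hK0.prop.2
  let Q := P ⧸ K0
  let π : P →* Q := QuotientGroup.mk' K0
  have hπ : Function.Surjective π := QuotientGroup.mk'_surjective K0
  have hQp : IsPGroup p Q := P.2.to_quotient K0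
  have hKb : (K.map π) ≠ ⊥ := by
    intro h
    have : K ≤ π.ker := (Subgroup.map_eq_bot_iff K).1 h
    rw [QuotientGroup.ker_mk'] at this
    exact not_le_of_gt hK0lt this
  have : (K.map π).Normal := hKn.map π hπ
  obtain ⟨z, hzK, hzc, hzo⟩ := exists_central hQp (K.map π) hKb
  have hZ : K.map π = Subgroup.zpowers z := by
    apply le_antisymm
    · have : (Subgroup.zpowers z).Normal := by
        constructor
        intro n hn g
        have hnc : n ∈ Subgroup.center Q :=
          (Subgroup.zpowers_le.2 hzc) hn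
        rw [Subgroup.mem_center_iff] at hnc
        rw [hnc g, mul_inv_cancel_right]
        exact hn
      have hle : K0 ≤ (Subgroup.zpowers z).comap π := by
        intro x hx
        rw [Subgroup.mem_comap]
        have : π x = 1 := (QuotientGroup.eq_one_iff x).2 hx
        rw [this]; exact one_mem _
      have hcK : (Subgroup.zpowers z).comap π ≤ K := by
        intro x hx
        rw [Subgroup.mem_comap] at hx
        have hx' : π x ∈ K.map π := (Subgroup.zpowers_le.2 hzK) hx
        obtain ⟨y, hy, hyx⟩ := hx'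
        have : y⁻¹ * x ∈ K0 := by
          have := (QuotientGroup.eq (s := K0) (a := y) (b := x)).1 hyx
          exact this
        have h2 := K.mul_mem hy (hK0lt.le this)
        simpa using h2
      have hKe : (Subgroup.zpowers z).comap π = K := by
        by_contra hne
        have hlt : (Subgroup.zpowers z).comap π < K := lt_of_le_of_ne hcK hne
        have hmemS : (Subgroup.zpowers z).comap π ∈ S' := ⟨inferInstance, hlt⟩
        have := hK0.le_of_ge hmemS hle
        -- z lies in the image of K0, contradiction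
        obtain ⟨y, hy⟩ := hπ z
        have hyK : y ∈ K0 := this (by rw [Subgroup.mem_comap, hy]; exact Subgroup.mem_zpowers z)
        have : π y = 1 := (QuotientGroup.eq_one_iff y).2 hyK
        rw [hy] at this
        rw [this, orderOf_one] at hzo
        exact hp.one_lt.ne hzo
      rw [← hKe, Subgroup.map_comap_eq_self_of_surjective hπ]
    · exact Subgroup.zpowers_le.2 hzK
  -- the map f : Q → G / A
  have hK0A : ∀ x : P, x ∈ K0 → ((QuotientGroup.mk' A).comp (P : Subgroup G).subtype) x = 1 := by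
    intro x hx
    have : x ∈ K := hK0lt.le hx
    rw [MonoidHom.comp_apply]
    exact (QuotientGroup.eq_one_iff _).2 this
  let f : Q →* G ⧸ A := QuotientGroup.lift K0 _ hK0A
  have hf : ∀ x : P, f (π x) = QuotientGroup.mk' A (x : G) := fun x => rfl
  have hfker : ∀ y : Q, f y = 1 → y ∈ Subgroup.zpowers z := by
    intro y hy
    obtain ⟨x, rfl⟩ := hπ y
    rw [hf] at hy
    have hxA : (x : G) ∈ A := (QuotientGroup.eq_one_iff _).1 hy
    rw [← hZ]
    exact ⟨x, hxA, rfl⟩
  have hfz : ∀ y ∈ Subgroup.zpowers z, f y = 1 := by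
    intro y hy
    rw [← hZ] at hy
    obtain ⟨x, hx, rfl⟩ := hy
    rw [hf]
    exact (QuotientGroup.eq_one_iff _).2 hx
  -- the fibre product
  let E : Subgroup (G × Q) :=
    MonoidHom.eqLocus ((QuotientGroup.mk' A).comp (MonoidHom.fst G Q)) (f.comp (MonoidHom.snd G Q))
  have hE : ∀ g y, (g, y) ∈ E ↔ QuotientGroup.mk' A g = f y := fun g y => Iff.rfl
  let fstE : E →* G := (MonoidHom.fst G Q).comp E.subtype
  -- G = A P
  have hAP : ∀ g : G, ∃ x : P, QuotientGroup.mk' A g = QuotientGroup.mk' A (x : G) := by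
    intro g
    have hsup : A ⊔ (P : Subgroup G) = ⊤ := by
      have hidx : (A ⊔ (P : Subgroup G)).index = 1 := by
        have h1 : (A ⊔ (P : Subgroup G)).index ∣ (P : Subgroup G).index :=
          Subgroup.index_dvd_of_le le_sup_right
        have h2 : (A ⊔ (P : Subgroup G)).index ∣ A.index := Subgroup.index_dvd_of_le le_sup_left
        have hGA : IsPGroup p (G ⧸ A) := by
          intro g
          obtain ⟨g, rfl⟩ := QuotientGroup.mk'_surjective A g
          obtain ⟨k, hk⟩ := hAp g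
          exact ⟨k, by rw [← map_pow]; exact (QuotientGroup.eq_one_iff _).2 hk⟩
        obtain ⟨n, hn⟩ := hGA.exists_card_eq
        rw [← Subgroup.index_eq_card] at hn
        rw [hn] at h2
        have h3 : Nat.Coprime (P : Subgroup G).index (p ^ n) :=
          (Nat.Coprime.pow_left n ((Nat.Prime.coprime_iff_not_dvd hp).2 P.not_dvd_index)).symm
        exact Nat.eq_one_of_dvd_coprimes h3 h1 h2
      exact Subgroup.index_eq_one.1 hidx
    have hg : g ∈ A ⊔ (P : Subgroup G) := by rw [hsup]; trivial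
    rw [Subgroup.mem_sup_of_normal_left] at hg
    obtain ⟨a, ha, x, hx, rfl⟩ := hg
    refine ⟨⟨x, hx⟩, ?_⟩
    rw [map_mul]
    have : QuotientGroup.mk' A a = 1 := (QuotientGroup.eq_one_iff _).2 ha
    rw [this, one_mul]
  have hfstE : Function.Surjective fstE := by
    intro g
    obtain ⟨x, hx⟩ := hAP g
    exact ⟨⟨(g, π x), (hE _ _).2 (by rw [hx, hf])⟩, rfl⟩
  -- the group C of order p
  let C := Subgroup.zpowers z
  letI : CommGroup C := { (inferInstance : Group C) with
    mul_comm := fun a b => mul_comm' a b }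
  have hCp : ∀ c : C, c ^ p = 1 := by
    rintro ⟨c, hc⟩
    obtain ⟨n, rfl⟩ := Subgroup.mem_zpowers_iff.1 hc
    ext
    simp only [SubmonoidClass.mk_pow, OneMemClass.coe_one]
    have hzp : z ^ p = 1 := by
      have := pow_orderOf_eq_one z
      rwa [hzo] at this
    rw [← zpow_natCast, ← zpow_mul, mul_comm, zpow_mul, zpow_natCast, hzp, one_zpow]
  have hCcen : ∀ c ∈ Subgroup.zpowers z, ∀ y : Q, c * y = y * c := by
    intro c hc y
    have := (Subgroup.zpowers_le.2 hzc) hc
    exact ((Subgroup.mem_center_iff.1 this) y).symm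
  let i : C →* E :=
    { toFun := fun c => ⟨(1, (c : Q)), (hE _ _).2 (by rw [hfz _ c.2, map_one])⟩
      map_one' := rfl
      map_mul' := by
        intro a b
        apply Subtype.ext
        simp }
  have hi : ∀ c e, i c * e = e * i c := by
    rintro c ⟨⟨g, y⟩, he⟩
    apply Subtype.ext
    show ((1, (c : Q)) * (g, y) : G × Q) = (g, y) * (1, (c : Q))
    rw [Prod.mk_mul_mk, Prod.mk_mul_mk, one_mul, mul_one, hCcen c c.2]
  let T : Subgroup E := (P : Subgroup G).comap fstE
  have hT : ¬ p ∣ T.index := by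
    rw [Subgroup.index_comap_of_surjective _ hfstE]
    exact P.not_dvd_index
  have hρmem : ∀ t : T, (t : E).1.2 * (π ⟨fstE t, t.2⟩)⁻¹ ∈ Subgroup.zpowers z := by
    intro t
    apply hfker
    rw [map_mul, map_inv, hf]
    have := (hE _ _).1 (t : E).2
    rw [mul_inv_eq_one]
    exact this.symm
  let ρ : T →* C :=
    { toFun := fun t => ⟨_, hρmem t⟩
      map_one' := by
        apply Subtype.ext
        show (1 : Q) * (π 1)⁻¹ = 1
        rw [map_one, inv_one, one_mul]
      map_mul' := by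
        intro a b
        apply Subtype.ext
        show ((a : E).1.2 * (b : E).1.2) * (π ⟨fstE (a * b : T), (a * b).2⟩)⁻¹ =
          ((a : E).1.2 * (π ⟨fstE a, a.2⟩)⁻¹) * ((b : E).1.2 * (π ⟨fstE b, b.2⟩)⁻¹)
        have h1 : π ⟨fstE (a * b : T), (a * b).2⟩ = π ⟨fstE a, a.2⟩ * π ⟨fstE b, b.2⟩ := by
          rw [← map_mul]; rfl
        rw [h1, mul_inv_rev]
        have h2 := hCcen _ (hρmem b) ((π ⟨fstE a, a.2⟩)⁻¹)
        calc ((a : E).1.2 * (b : E).1.2) * ((π ⟨fstE b, b.2⟩)⁻¹ * (π ⟨fstE a, a.2⟩)⁻¹)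
            = (a : E).1.2 * (((b : E).1.2 * (π ⟨fstE b, b.2⟩)⁻¹) * (π ⟨fstE a, a.2⟩)⁻¹) := by
              simp only [mul_assoc]
          _ = (a : E).1.2 * ((π ⟨fstE a, a.2⟩)⁻¹ * ((b : E).1.2 * (π ⟨fstE b, b.2⟩)⁻¹)) := by
              rw [h2]
          _ = _ := by simp only [mul_assoc] }
  have hiT : ∀ c, i c ∈ T := by
    intro c
    show (1 : G) ∈ (P : Subgroup G)
    exact one_mem _
  have hρi : ∀ c, ρ ⟨i c, hiT c⟩ = c := by
    intro c
    apply Subtype.ext
    show (c : Q) * (π 1)⁻¹ = c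
    rw [map_one, inv_one, mul_one]
  obtain ⟨τ, hτ⟩ := exists_retract hCp i hi T hT ρ hiT hρi
  -- the section s : G → Q
  let σ : E →* Q :=
    { toFun := fun e => e.1.2 * ((τ e : C) : Q)⁻¹
      map_one' := by simp
      map_mul' := by
        intro a b
        show (a.1.2 * b.1.2) * ((τ (a * b) : C) : Q)⁻¹ =
          (a.1.2 * ((τ a : C) : Q)⁻¹) * (b.1.2 * ((τ b : C) : Q)⁻¹)
        rw [map_mul]
        have h2 := hCcen _ ((Subgroup.zpowers z).inv_mem (τ a).2) b.1.2
        have h3 := hCcen _ ((Subgroup.zpowers z).inv_mem (τ b).2) ((τ a : C) : Q)⁻¹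
        simp only [Subgroup.coe_mul, mul_inv_rev]
        calc a.1.2 * b.1.2 * (((τ b : C) : Q)⁻¹ * ((τ a : C) : Q)⁻¹)
            = a.1.2 * b.1.2 * (((τ a : C) : Q)⁻¹ * ((τ b : C) : Q)⁻¹) := by rw [h3]
          _ = a.1.2 * (b.1.2 * ((τ a : C) : Q)⁻¹) * ((τ b : C) : Q)⁻¹ := by simp only [mul_assoc]
          _ = a.1.2 * (((τ a : C) : Q)⁻¹ * b.1.2) * ((τ b : C) : Q)⁻¹ := by rw [h2]
          _ = _ := by simp only [mul_assoc] }
  have hσker : fstE.ker ≤ σ.ker := by
    rintro ⟨⟨g, y⟩, he⟩ hk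
    rw [MonoidHom.mem_ker] at hk ⊢
    have hg1 : g = 1 := hk
    subst hg1
    have hy : y ∈ Subgroup.zpowers z := hfker y (by rw [← (hE _ _).1 he, map_one])
    have hie : i ⟨y, hy⟩ = ⟨(1, y), he⟩ := rfl
    show y * ((τ ⟨(1, y), he⟩ : C) : Q)⁻¹ = 1
    rw [← hie, hτ]
    exact mul_inv_cancel y
  let s : G →* Q := MonoidHom.liftOfSurjective fstE hfstE ⟨σ, hσker⟩
  have hs : ∀ e : E, s (fstE e) = σ e := by
    intro e
    exact MonoidHom.liftOfRightInverse_comp_apply _ _ _ ⟨σ, hσker⟩ e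
  have hAs : A ≤ s.ker := by
    apply hmin _ inferInstance
    intro g
    obtain ⟨k, hk⟩ := hQp (s g)
    exact ⟨k, by rw [MonoidHom.mem_ker, map_pow]; exact hk⟩
  -- the character χ of P
  let j : P →* E :=
    { toFun := fun x => ⟨((x : G), π x), (hE _ _).2 (by rw [hf])⟩
      map_one' := by apply Subtype.ext; simp
      map_mul' := by intro a b; apply Subtype.ext; simp }
  have hχ : ∀ x ∈ K, (((τ (j x)) : C) : Q) = π x := by
    intro x hx
    have h1 : s (x : G) = 1 := hAs hx
    have h2 : s (fstE (j x)) = σ (j x) := hs _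
    have h3 : fstE (j x) = (x : G) := rfl
    rw [h3, h1] at h2
    have h4 : (1 : Q) = π x * ((τ (j x) : C) : Q)⁻¹ := h2
    exact (mul_inv_eq_one.1 h4.symm).symm
  have hcardC : Nat.card C = p := by
    rw [Nat.card_zpowers, hzo]
  let e : C ≃* Multiplicative (ZMod p) :=
    mulEquivOfPrimeCardEq (p := p) hcardC (by simp)
  apply not_le_of_gt hK0lt
  intro x hx
  have h1 := hN (e.toMonoidHom.comp (τ.comp j)) x (hAN hx)
  have h2 : τ (j x) = 1 := by
    have : e (τ (j x)) = 1 := h1
    exact (map_eq_one_iff e e.injective).1 this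
  have h3 := hχ x hx
  rw [h2] at h3
  exact (QuotientGroup.eq_one_iff x).1 h3.symm

/-- **Tate's criterion**: if all homomorphisms from the Sylow subgroup `P` to the group of order `p` are
trivial on `P ∩ N`, then the elements of the normal subgroup `N` of order prime to `p` are closed under
multiplication. -/
theorem tate {p : ℕ} [Fact p.Prime] {G : Type*} [Group G] [Finite G] (N : Subgroup G) [N.Normal]
    (P : Subgroup G) (hP : IsPGroup p P) (hPi : ¬ p ∣ P.index)
    (hN : ∀ f : P →* Multiplicative (ZMod p), ∀ x : P, (x : G) ∈ N → f x = 1)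
    (x y : G) (hx : x ∈ N) (hy : y ∈ N) (hxp : ¬ p ∣ orderOf x) (hyp : ¬ p ∣ orderOf y) :
    ¬ p ∣ orderOf (x * y) := by
  classical
  have hp : p.Prime := Fact.out
  -- work in H = N P
  let H : Subgroup G := N ⊔ P
  have hNH : N ≤ H := le_sup_left
  have hPH : P ≤ H := le_sup_right
  let N' : Subgroup H := N.subgroupOf H
  let P' : Subgroup H := P.subgroupOf H
  have hP'p : IsPGroup p P' := hP.comap_of_injective H.subtype H.subtype_injective
  have hP'i : ¬ p ∣ P'.index := by
    intro h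
    have : P'.index = P.relIndex H := rfl
    rw [this] at h
    have h2 : P.relIndex H ∣ P.index := Subgroup.relIndex_dvd_index_of_le hPH
    exact hPi (h.trans h2)
  let PS : Sylow p H := hP'p.toSylow hP'i
  have hPS : (PS : Subgroup H) = P' := rfl
  have e : P' ≃* P := Subgroup.subgroupOfEquivOfLe hPH
  have hG : ∀ g : H, ∃ k : ℕ, g ^ p ^ k ∈ N' := by
    rintro ⟨g, hg⟩
    obtain ⟨n, hn, x, hx, rfl⟩ := Subgroup.mem_sup_of_normal_left.1 hg
    obtain ⟨k, hk⟩ := hP ⟨x, hx⟩
    refine ⟨k, ?_⟩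
    rw [Subgroup.mem_subgroupOf]
    show (n * x) ^ p ^ k ∈ N
    rw [← QuotientGroup.eq_one_iff, QuotientGroup.mk_pow, QuotientGroup.mk_mul,
      (QuotientGroup.eq_one_iff n).2 hn, one_mul, ← QuotientGroup.mk_pow]
    have : x ^ p ^ k = 1 := congrArg Subtype.val hk
    rw [this]; rfl
  have hN' : ∀ f : PS →* Multiplicative (ZMod p), ∀ x : PS, (x : H) ∈ N' → f x = 1 := by
    intro f x hx
    have h1 := hN (f.comp (Subgroup.subgroupOfEquivOfLe hPH).symm.toMonoidHom)
      (Subgroup.subgroupOfEquivOfLe hPH x) hx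
    have h2 : (Subgroup.subgroupOfEquivOfLe hPH).symm (Subgroup.subgroupOfEquivOfLe hPH x) = x :=
      (Subgroup.subgroupOfEquivOfLe hPH).symm_apply_apply x
    have h3 : f ((Subgroup.subgroupOfEquivOfLe hPH).symm (Subgroup.subgroupOfEquivOfLe hPH x)) = 1 := h1
    rwa [h2] at h3
  obtain ⟨A, hAn, hAN, hAp, hA⟩ := tate_aux N' hG PS hN'
  have key : ∀ z : H, z ∈ A ↔ ¬ p ∣ orderOf z := by
    intro z
    constructor
    · intro hz h
      apply hAp
      have := orderOf_dvd_natCard (⟨z, hz⟩ : A)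
      rw [Subgroup.orderOf_mk] at this
      exact h.trans this
    · intro hz
      obtain ⟨k, hk⟩ := hA z
      have hcop : Nat.Coprime (p ^ k) (orderOf z) :=
        Nat.Coprime.pow_left k ((Nat.Prime.coprime_iff_not_dvd hp).2 hz)
      have h1 := (Subgroup.zpowers_le.2 hk : Subgroup.zpowers (z ^ p ^ k) ≤ A)
      apply h1
      obtain ⟨m, hm⟩ := exists_pow_eq_self_of_coprime hcop
      exact ⟨m, by simpa using hm⟩
  have hx' : (⟨x, hNH hx⟩ : H) ∈ A := (key _).2 (by rwa [Subgroup.orderOf_mk])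
  have hy' : (⟨y, hNH hy⟩ : H) ∈ A := (key _).2 (by rwa [Subgroup.orderOf_mk])
  have hxy := (key _).1 (A.mul_mem hx' hy')
  have : (⟨x, hNH hx⟩ : H) * ⟨y, hNH hy⟩ = ⟨x * y, hNH (N.mul_mem hx hy)⟩ := rfl
  rw [this, Subgroup.orderOf_mk] at hxy
  exact hxy

end Pool.Agent.H61.PF
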