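import Mathlib
import Pool.Agent.H61.PF.Tate
import Pool.Agent.H61.PF.Glaub
import Pool.Agent.H61.PF.Defs

/-!
# Closed subgroups of profinite groups: images in finite quotients, Sylow subgroups
-/

namespace Pool.Agent.H61.PF

open Subgroup
open scoped Pointwise

section

variable {G : Type*} [Group G] [TopologicalSpace G] [IsTopologicalGroup G] [CompactSpace G]
  [T2Space G] [TotallyDisconnectedSpace G]

/-- every open neighbourhood of one contains an open normal subgroup -/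
lemma exists_ON {O : Set G} (hO : IsOpen O) (h1 : (1 : G) ∈ O) :
    ∃ U : Subgroup G, U.Normal ∧ IsOpen (U : Set G) ∧ (U : Set G) ⊆ O := by
  obtain ⟨U, hU⟩ := ProfiniteGrp.exist_openNormalSubgroup_sub_open_nhds_of_one hO h1
  exact ⟨U.toSubgroup, U.isNormal', U.isOpen', hU⟩

omit [T2Space G] [TotallyDisconnectedSpace G] in
lemma finite_quot {U : Subgroup G} (hU : IsOpen (U : Set G)) : Finite (G ⧸ U) :=
  Subgroup.quotient_finite_of_isOpen U hU

/-- a point outside a closed subgroup stays outside in some finite quotient -/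
lemma exists_sep {H : Subgroup G} (hH : IsClosed (H : Set G)) {g : G} (hg : g ∉ H) :
    ∃ U : Subgroup G, U.Normal ∧ IsOpen (U : Set G) ∧ ∀ h ∈ H, h⁻¹ * g ∉ U := by
  have hO : IsOpen ((fun x => g * x) ⁻¹' (H : Set G)ᶜ) :=
    hH.isOpen_compl.preimage (continuous_const_mul g)
  obtain ⟨U, hUn, hUo, hU⟩ := exists_ON hO (by simpa using hg)
  refine ⟨U, hUn, hUo, ?_⟩
  intro h hh hmem
  have h2 : g * (h⁻¹ * g)⁻¹ ∉ H := hU (U.inv_mem hmem)
  apply h2
  have : g * (h⁻¹ * g)⁻¹ = h := by group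
  rw [this]; exact hh

lemma eq_one_of_forall {g : G} (h : ∀ U : Subgroup G, U.Normal → IsOpen (U : Set G) → g ∈ U) :
    g = 1 := by
  by_contra hg
  obtain ⟨U, hUn, hUo, hU⟩ := exists_sep (H := (⊥ : Subgroup G)) (by simp) (g := g)
    (by rwa [Subgroup.mem_bot])
  exact hU 1 (one_mem _) (by simpa using h U hUn hUo)

lemma mem_of_forall {H : Subgroup G} (hH : IsClosed (H : Set G)) {g : G}
    (h : ∀ U : Subgroup G, U.Normal → IsOpen (U : Set G) → ∃ h ∈ H, h⁻¹ * g ∈ U) : g ∈ H := by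
  by_contra hg
  obtain ⟨U, hUn, hUo, hU⟩ := exists_sep hH hg
  obtain ⟨x, hx, hxU⟩ := h U hUn hUo
  exact hU x hx hxU

omit [IsTopologicalGroup G] [T2Space G] [TotallyDisconnectedSpace G] in
/-- intersections of directed families and cosets of an open subgroup -/
lemma exists_mem_sInf (𝒞 : Set (Subgroup G)) (hne : 𝒞.Nonempty)
    (hc : ∀ H ∈ 𝒞, IsClosed (H : Set G)) (hdir : DirectedOn (· ≥ ·) 𝒞) (C : Set G)
    (hC : IsClosed C) (h : ∀ H ∈ 𝒞, ((H : Set G) ∩ C).Nonempty) :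
    ((sInf 𝒞 : Subgroup G) : Set G) ∩ C |>.Nonempty := by
  have : Nonempty ((fun H : Subgroup G => (H : Set G) ∩ C) '' 𝒞) := (hne.image _).to_subtype
  have := IsCompact.nonempty_sInter_of_directed_nonempty_isCompact_isClosed
    (S := (fun H : Subgroup G => (H : Set G) ∩ C) '' 𝒞) (by
      rintro _ ⟨H, hH, rfl⟩ _ ⟨K, hK, rfl⟩
      obtain ⟨L, hL, hHL, hKL⟩ := hdir H hH K hK
      exact ⟨_, ⟨L, hL, rfl⟩, Set.inter_subset_inter_left _ hHL,
        Set.inter_subset_inter_left _ hKL⟩)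
    (by rintro _ ⟨H, hH, rfl⟩; exact h H hH)
    (by rintro _ ⟨H, hH, rfl⟩; exact ((hc H hH).inter hC).isCompact)
    (by rintro _ ⟨H, hH, rfl⟩; exact (hc H hH).inter hC)
  obtain ⟨x, hx⟩ := this
  obtain ⟨H0, hH0⟩ := hne
  refine ⟨x, ?_, (hx _ ⟨H0, hH0, rfl⟩).2⟩
  rw [SetLike.mem_coe, Subgroup.mem_sInf]
  intro H hH
  exact (hx _ ⟨H, hH, rfl⟩).1

omit [T2Space G] [TotallyDisconnectedSpace G] in
/-- in a chain of closed subgroups the image of the intersection in a finite quotient is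
the image of a member of the chain -/
lemma map_sInf_chain (𝒞 : Set (Subgroup G)) (hne : 𝒞.Nonempty)
    (hc : ∀ H ∈ 𝒞, IsClosed (H : Set G)) (hchain : IsChain (· ≤ ·) 𝒞)
    (U : Subgroup G) [hUn : U.Normal] (hUo : IsOpen (U : Set G)) :
    ∃ H ∈ 𝒞, (sInf 𝒞).map (QuotientGroup.mk' U) = H.map (QuotientGroup.mk' U) := by
  have := finite_quot hUo
  have hfin : ((fun H : Subgroup G => H.map (QuotientGroup.mk' U)) '' 𝒞).Finite := Set.toFinite _
  obtain ⟨m, hm⟩ := hfin.exists_minimal (hne.image _)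
  obtain ⟨H, hH, hHm⟩ := hm.prop
  refine ⟨H, hH, le_antisymm (Subgroup.map_mono (sInf_le hH)) ?_⟩
  have hle : ∀ K ∈ 𝒞, H.map (QuotientGroup.mk' U) ≤ K.map (QuotientGroup.mk' U) := by
    intro K hK
    rcases hchain.total hH hK with h | h
    · exact Subgroup.map_mono h
    · have h1 : K.map (QuotientGroup.mk' U) ≤ m := by rw [← hHm]; exact Subgroup.map_mono h
      have h2 := hm.le_of_le ⟨K, hK, rfl⟩ h1
      rw [← hHm] at h2
      exact h2
  rintro _ ⟨g, hg, rfl⟩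
  have hclosed : IsClosed ((fun x => g⁻¹ * x) ⁻¹' (U : Set G)) :=
    (Subgroup.isClosed_of_isOpen U hUo).preimage (continuous_const_mul g⁻¹)
  have hdir : DirectedOn (· ≥ ·) 𝒞 := by
    intro a ha b hb
    rcases hchain.total ha hb with h | h
    · exact ⟨a, ha, le_refl _, h⟩
    · exact ⟨b, hb, h, le_refl _⟩
  obtain ⟨x, hx1, hx2⟩ := exists_mem_sInf 𝒞 hne hc hdir _ hclosed (by
    intro K hK
    obtain ⟨k, hk, hkg⟩ := hle K hK ⟨g, hg, rfl⟩
    exact ⟨k, hk, (QuotientGroup.eq (s := U)).1 hkg.symm⟩)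
  exact ⟨x, hx1, ((QuotientGroup.eq (s := U)).2 hx2).symm⟩

omit [IsTopologicalGroup G] [T2Space G] [TotallyDisconnectedSpace G] [CompactSpace G] in
lemma isClosed_sInf (𝒞 : Set (Subgroup G)) (hc : ∀ H ∈ 𝒞, IsClosed (H : Set G)) :
    IsClosed ((sInf 𝒞 : Subgroup G) : Set G) := by
  rw [Subgroup.coe_sInf]
  exact isClosed_biInter hc

omit [TopologicalSpace G] [IsTopologicalGroup G] [CompactSpace G] [T2Space G]
  [TotallyDisconnectedSpace G] in
lemma relIndex_map_dvd {G' : Type*} [Group G'] (f : G →* G') {H₁ H : Subgroup G} (h : H₁ ≤ H) :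
    (H₁.map f).relIndex (H.map f) ∣ H₁.relIndex H := by
  have h1 : (H₁.subgroupOf H).map (f.subgroupMap H) = (H₁.map f).subgroupOf (H.map f) := by
    ext ⟨y, hy⟩
    simp only [Subgroup.mem_map, Subgroup.mem_subgroupOf]
    constructor
    · rintro ⟨x, hx, hxy⟩
      exact ⟨x, hx, congrArg Subtype.val hxy⟩
    · rintro ⟨x, hx, hxy⟩
      exact ⟨⟨x, h hx⟩, hx, Subtype.ext hxy⟩
  have h2 := Subgroup.index_map_dvd (H₁.subgroupOf H) (f := f.subgroupMap H)
    (f.subgroupMap_surjective H)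
  rw [h1] at h2
  exact h2

/-- Invariant Sylow pro-`r` subgroups. -/
theorem exists_proSylow (K A : Subgroup G) (hK : IsClosed (K : Set G))
    (hAK : ∀ a ∈ A, ∀ x ∈ K, a * x * a⁻¹ ∈ K)
    (hsol : ∀ (U : Subgroup G) [U.Normal], IsOpen (U : Set G) →
      Group.IsSolvable (A.map (QuotientGroup.mk' U)))
    (hcop : ∀ (U : Subgroup G) [U.Normal], IsOpen (U : Set G) →
      Nat.Coprime (Nat.card (A.map (QuotientGroup.mk' U))) (Nat.card (K.map (QuotientGroup.mk' U))))
    (r : ℕ) [hr : Fact r.Prime] :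
    ∃ R : Subgroup G, R ≤ K ∧ IsClosed (R : Set G) ∧ (∀ a ∈ A, ∀ x ∈ R, a * x * a⁻¹ ∈ R) ∧
      ProP r R ∧ ∀ (U : Subgroup G) [U.Normal], IsOpen (U : Set G) → ∀ n,
        r ^ n ∣ Nat.card (K.map (QuotientGroup.mk' U)) →
        r ^ n ∣ Nat.card (R.map (QuotientGroup.mk' U)) := by
  classical
  let S : Set (Subgroup G) := {R | R ≤ K ∧ IsClosed (R : Set G) ∧
    (∀ a ∈ A, ∀ x ∈ R, a * x * a⁻¹ ∈ R) ∧
    ∀ (U : Subgroup G) [U.Normal], IsOpen (U : Set G) → ∀ n,
        r ^ n ∣ Nat.card (K.map (QuotientGroup.mk' U)) →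
        r ^ n ∣ Nat.card (R.map (QuotientGroup.mk' U))}
  have hKS : K ∈ S := ⟨le_refl _, hK, hAK, fun U _ _ n h => h⟩
  have hzorn : ∃ m, Minimal (· ∈ S) m := by
    obtain ⟨m, hm⟩ := zorn_le₀ (α := (Subgroup G)ᵒᵈ) (OrderDual.ofDual ⁻¹' S) (by
      intro c hcS hchain
      by_cases hne : c.Nonempty
      · let 𝒞 : Set (Subgroup G) := OrderDual.toDual ⁻¹' c
        have hne' : 𝒞.Nonempty := hne
        have hcl : ∀ H ∈ 𝒞, IsClosed (H : Set G) := fun H hH => (hcS hH).2.1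
        have hch : IsChain (· ≤ ·) 𝒞 := fun a ha b hb hab => (hchain ha hb hab).symm
        refine ⟨OrderDual.toDual (sInf 𝒞), ⟨?_, isClosed_sInf 𝒞 hcl, ?_, ?_⟩, fun z hz => ?_⟩
        · obtain ⟨H, hH⟩ := hne'
          exact (sInf_le hH).trans (hcS hH).1
        · intro a ha x hx
          have hx' : ∀ H ∈ 𝒞, x ∈ H := Subgroup.mem_sInf.1 hx
          exact Subgroup.mem_sInf.2 fun H hH => (hcS hH).2.2.1 a ha x (hx' H hH)
        · intro U hUn hUo n hn
          obtain ⟨H, hH, hHe⟩ := map_sInf_chain 𝒞 hne' hcl hch U hUo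
          show r ^ n ∣ Nat.card ((sInf 𝒞).map (QuotientGroup.mk' U))
          rw [hHe]
          exact (hcS hH).2.2.2 U hUo n hn
        · show sInf 𝒞 ≤ z
          exact sInf_le hz
      · rw [Set.not_nonempty_iff_eq_empty] at hne
        exact ⟨OrderDual.toDual K, hKS, by simp [hne]⟩)
    exact ⟨OrderDual.ofDual m, hm.prop, fun y hy hym => hm.le_of_ge hy hym⟩
  obtain ⟨R, hR⟩ := hzorn
  obtain ⟨hRK, hRc, hRA, hRi⟩ := hR.prop
  refine ⟨R, hRK, hRc, hRA, ?_, hRi⟩
  intro U hUn hUo x hx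
  have := finite_quot hUo
  let π := QuotientGroup.mk' U
  obtain ⟨Q, hQL, hQp, hQi, hQA⟩ := exists_invariant_sylow' (R.map π) (A.map π) (hsol U hUo)
    (Nat.Coprime.coprime_dvd_right (Subgroup.card_dvd_of_le (Subgroup.map_mono hRK)) (hcop U hUo))
    (by
      rintro _ ⟨a, ha, rfl⟩ _ ⟨y, hy, rfl⟩
      exact ⟨a * y * a⁻¹, hRA a ha y hy, by simp⟩) r
  let R1 : Subgroup G := R ⊓ Q.comap π
  have hQclosed : IsClosed ((Q.comap π : Subgroup G) : Set G) := by
    apply Subgroup.isClosed_of_isOpen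
    apply Subgroup.isOpen_mono (H₁ := U) _ hUo
    intro y hy
    rw [Subgroup.mem_comap]
    have : π y = 1 := (QuotientGroup.eq_one_iff y).2 hy
    rw [this]; exact one_mem _
  have hmapR1 : R1.map π = Q := by
    apply le_antisymm
    · rintro _ ⟨y, hy, rfl⟩
      exact hy.2
    · intro y hy
      obtain ⟨z, hz, rfl⟩ := hQL hy
      exact ⟨z, ⟨hz, hy⟩, rfl⟩
  have hidx : R1.relIndex R ∣ Q.relIndex (R.map π) := by
    have h1 : R1.relIndex R = (Q.comap π).relIndex R := by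
      show (R ⊓ Q.comap π).relIndex R = _
      rw [inf_comm, Subgroup.inf_relIndex_right]
    rw [h1, Subgroup.relIndex_comap]
  have hR1S : R1 ∈ S := by
    refine ⟨inf_le_left.trans hRK, ?_, ?_, ?_⟩
    · exact hRc.inter hQclosed
    · intro a ha y hy
      refine ⟨hRA a ha y hy.1, ?_⟩
      have := hQA (π a) ⟨a, ha, rfl⟩ (π y) hy.2
      show π (a * y * a⁻¹) ∈ Q
      rw [map_mul, map_mul, map_inv]
      exact this
    · intro V hVn hVo n hn
      have h1 := hRi V hVo n hn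
      have h2 := relIndex_map_dvd (QuotientGroup.mk' V) (inf_le_left : R1 ≤ R)
      have := finite_quot hVo
      have h3 : Nat.card (R1.map (QuotientGroup.mk' V)) *
          (R1.map (QuotientGroup.mk' V)).relIndex (R.map (QuotientGroup.mk' V)) =
          Nat.card (R.map (QuotientGroup.mk' V)) := by
        have := Subgroup.relIndex_mul_relIndex (⊥ : Subgroup (G ⧸ V)) (R1.map (QuotientGroup.mk' V))
          (R.map (QuotientGroup.mk' V)) bot_le (Subgroup.map_mono inf_le_left)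
        rwa [Subgroup.relIndex_bot_left, Subgroup.relIndex_bot_left] at this
      rw [← h3] at h1
      have hnd : ¬ r ∣ (R1.map (QuotientGroup.mk' V)).relIndex (R.map (QuotientGroup.mk' V)) :=
        fun h => hQi ((h.trans h2).trans hidx)
      exact Nat.Coprime.dvd_of_dvd_mul_right
        (Nat.Coprime.pow_left n ((Nat.Prime.coprime_iff_not_dvd hr.out).2 hnd)) h1
  have hle : R ≤ R1 := hR.le_of_le hR1S inf_le_left
  have hxQ : π x ∈ Q := (hle hx).2
  obtain ⟨k, hk⟩ := hQp ⟨π x, hxQ⟩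
  refine ⟨k, ?_⟩
  have h4 : (π x) ^ r ^ k = 1 := congrArg Subtype.val hk
  rw [← map_pow] at h4
  exact (QuotientGroup.eq_one_iff _).1 h4

end

end Pool.Agent.H61.PF
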