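import Mathlib
import Pool.Agent.H61.PF.Top

/-!
# The maximum condition for closed subgroups: topological generation, characters of pro-`p` groups
-/

namespace Pool.Agent.H61.PF

open Subgroup
open scoped Pointwise

section

variable {G : Type*} [Group G] [TopologicalSpace G] [IsTopologicalGroup G] [CompactSpace G]
  [T2Space G] [TotallyDisconnectedSpace G]

omit [IsTopologicalGroup G] [CompactSpace G] [T2Space G] [TotallyDisconnectedSpace G] in
lemma wf_of_max (h : MaxClosed G) : WellFoundedGT {H : Subgroup G // IsClosed (H : Set G)} := by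
  rw [wellFoundedGT_iff_monotone_chain_condition]
  intro a
  obtain ⟨n, hn⟩ := h (fun k => (a k).1) (fun k => (a k).2) (fun i j hij => a.monotone hij)
  exact ⟨n, fun m hm => Subtype.ext (hn m hm)⟩

omit [IsTopologicalGroup G] [CompactSpace G] [T2Space G] [TotallyDisconnectedSpace G] in
lemma exists_max (h : MaxClosed G) (S : Set (Subgroup G)) (hne : S.Nonempty)
    (hS : ∀ H ∈ S, IsClosed (H : Set G)) : ∃ H ∈ S, ∀ K ∈ S, H ≤ K → K = H := by
  have := wf_of_max h
  obtain ⟨H0, hH0⟩ := hne
  obtain ⟨m, hm, hmax⟩ := WellFounded.has_min (wellFounded_gt (α := {H : Subgroup G // IsClosed (H : Set G)}))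
    {H | H.1 ∈ S} ⟨⟨H0, hS _ hH0⟩, hH0⟩
  refine ⟨m.1, hm, fun K hK hle => ?_⟩
  by_contra hne
  exact hmax ⟨K, hS K hK⟩ hK (lt_of_le_of_ne hle (fun h => hne (congrArg Subtype.val h).symm))

omit [T2Space G] [TotallyDisconnectedSpace G] [CompactSpace G] in
/-- closed subgroups of a group with the maximum condition are topologically finitely generated -/
lemma exists_topGen (h : MaxClosed G) (H : Subgroup G) :
    ∃ T : Set G, T.Finite ∧ TopGen H T := by
  let S : Set (Subgroup G) := {K | ∃ T : Set G, T.Finite ∧ T ⊆ H ∧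
    K = (Subgroup.closure T).topologicalClosure}
  obtain ⟨K, ⟨T, hTf, hTH, rfl⟩, hmax⟩ := exists_max h S ⟨_, ∅, Set.finite_empty, by simp, rfl⟩ (by
    rintro _ ⟨T, _, _, rfl⟩
    exact Subgroup.isClosed_topologicalClosure _)
  refine ⟨T, hTf, hTH, ?_⟩
  intro K hK hTK x hx
  have h1 : (Subgroup.closure (insert x T)).topologicalClosure =
      (Subgroup.closure T).topologicalClosure := by
    apply hmax
    · exact ⟨insert x T, hTf.insert x, Set.insert_subset hx hTH, rfl⟩
    · exact Subgroup.topologicalClosure_mono (Subgroup.closure_mono (Set.subset_insert _ _))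
  have h2 : x ∈ (Subgroup.closure T).topologicalClosure := by
    rw [← h1]
    exact Subgroup.le_topologicalClosure _ (Subgroup.subset_closure (Set.mem_insert _ _))
  have h3 : (Subgroup.closure T).topologicalClosure ≤ K :=
    Subgroup.topologicalClosure_minimal _ ((Subgroup.closure_le K).2 hTK) hK
  exact h3 h2

/-- The characters of order `p` with open kernel. -/
def Chars (p : ℕ) (H : Subgroup G) : Set (H →* Multiplicative (ZMod p)) :=
  {φ | IsOpen (φ.ker : Set H)}

omit [CompactSpace G] [T2Space G] [TotallyDisconnectedSpace G] in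
lemma finite_chars {p : ℕ} [Fact p.Prime] (H : Subgroup G) (hH : IsClosed (H : Set G)) (T : Set G)
    (hT : T.Finite) (hgen : TopGen H T) : (Chars p H).Finite := by
  classical
  have := hT.to_subtype
  have : Finite (Multiplicative (ZMod p)) := inferInstanceAs (Finite (ZMod p))
  let f : Chars p H → (T → Multiplicative (ZMod p)) := fun φ t => φ.1 ⟨t.1, hgen.1 t.2⟩
  have hf : Function.Injective f := by
    rintro ⟨φ, hφ⟩ ⟨ψ, hψ⟩ hfe
    apply Subtype.ext
    let E : Subgroup H := φ.eqLocus ψ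
    have hEo : IsOpen (E : Set H) := by
      apply Subgroup.isOpen_mono (H₁ := φ.ker ⊓ ψ.ker)
      · intro x hx
        show φ x = ψ x
        rw [(MonoidHom.mem_ker).1 hx.1, (MonoidHom.mem_ker).1 hx.2]
      · exact (show IsOpen (φ.ker : Set H) from hφ).inter (show IsOpen (ψ.ker : Set H) from hψ)
    have hEc : IsClosed (E : Set H) := Subgroup.isClosed_of_isOpen E hEo
    have hEm : IsClosed ((E.map H.subtype : Subgroup G) : Set G) := by
      have : ((E.map H.subtype : Subgroup G) : Set G) = Subtype.val '' (E : Set H) := rfl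
      rw [this]
      exact hH.isClosedEmbedding_subtypeVal.isClosedMap _ hEc
    have h1 := hgen.2 _ hEm (by
      intro t ht
      exact ⟨⟨t, hgen.1 ht⟩, congrFun hfe ⟨t, ht⟩, rfl⟩)
    ext1 x
    obtain ⟨y, hy, hyx⟩ := h1 x.2
    have : y = x := Subtype.ext hyx
    rw [← this]
    exact hy
  exact Set.finite_coe_iff.1 (Finite.of_injective f hf)

/-- There is an open normal subgroup of `G` on which all characters of `P` are trivial. -/
lemma exists_kill_chars {p : ℕ} [Fact p.Prime] (P : Subgroup G) (hfin : (Chars p P).Finite) :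
    ∃ U : Subgroup G, U.Normal ∧ IsOpen (U : Set G) ∧ ∀ φ ∈ Chars p P, ∀ x : P, (x : G) ∈ U →
      φ x = 1 := by
  have hW : IsOpen (⋂ φ ∈ Chars p P, (φ.ker : Set P)) := hfin.isOpen_biInter fun φ hφ => hφ
  obtain ⟨O, hO, hOW⟩ := isOpen_induced_iff.1 hW
  have h1 : (1 : G) ∈ O := by
    have : (1 : P) ∈ (Subtype.val ⁻¹' O : Set P) := by
      rw [hOW]
      simp only [Set.mem_iInter]
      intro φ _
      exact one_mem _
    exact this
  obtain ⟨U, hUn, hUo, hU⟩ := exists_ON hO h1
  refine ⟨U, hUn, hUo, fun φ hφ x hx => ?_⟩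
  have h2 : x ∈ (Subtype.val ⁻¹' O : Set P) := hU hx
  rw [hOW] at h2
  simp only [Set.mem_iInter] at h2
  exact h2 φ hφ

/-- Conclusion of Tate's criterion for profinite groups: there is an open normal subgroup `U` such that in
all finite quotients the `p'`-elements of `U` are closed under products. -/
def PNil (p : ℕ) (U : Subgroup G) : Prop :=
  ∀ (V : Subgroup G) [V.Normal], IsOpen (V : Set G) → V ≤ U → ∀ x ∈ U, ∀ y ∈ U,
    ¬ p ∣ orderOf (QuotientGroup.mk' V x) → ¬ p ∣ orderOf (QuotientGroup.mk' V y) →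
    ¬ p ∣ orderOf (QuotientGroup.mk' V (x * y))

theorem exists_PNil (p : ℕ) [hp : Fact p.Prime]
    (h : ∀ H : Subgroup G, IsClosed (H : Set G) → ProP p H → ∃ T : Set G, T.Finite ∧ TopGen H T) :
    ∃ U : Subgroup G, U.Normal ∧ IsOpen (U : Set G) ∧ PNil p U := by
  obtain ⟨P, -, hPc, -, hPp, hPi⟩ := exists_proSylow (⊤ : Subgroup G) (⊥ : Subgroup G) isClosed_univ
    (fun _ _ _ _ => trivial)
    (by intro U _ _; rw [Subgroup.map_bot]; infer_instance)
    (by intro U _ _; rw [Subgroup.map_bot]; simp) p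
  obtain ⟨T, hT, hgen⟩ := h P hPc hPp
  obtain ⟨U, hUn, hUo, hU⟩ := exists_kill_chars (p := p) P (finite_chars P hPc T hT hgen)
  refine ⟨U, hUn, hUo, ?_⟩
  intro V hVn hVo hVU x hx y hy hxp hyp
  have := finite_quot hVo
  let π := QuotientGroup.mk' V
  have hπ : Function.Surjective π := QuotientGroup.mk'_surjective V
  have : (U.map π).Normal := hUn.map π hπ
  rw [map_mul]
  have hPm : IsPGroup p (P.map π) := by
    rintro ⟨_, z, hz, rfl⟩
    obtain ⟨k, hk⟩ := hPp V hVo z hz
    refine ⟨k, Subtype.ext ?_⟩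
    show (π z) ^ p ^ k = 1
    rw [← map_pow]
    exact (QuotientGroup.eq_one_iff _).2 hk
  have hPidx : ¬ p ∣ (P.map π).index := by
    intro hd
    have h1 : Nat.card (P.map π) * (P.map π).index = Nat.card (G ⧸ V) := Subgroup.card_mul_index _
    obtain ⟨n, m, hm, hnm⟩ := Nat.exists_eq_pow_mul_and_not_dvd (n := Nat.card (G ⧸ V))
      Nat.card_pos.ne' p hp.out.ne_one
    have h2 := hPi V hVo n (by
      rw [Subgroup.map_top_of_surjective _ hπ, Subgroup.card_top, hnm]; exact dvd_mul_right _ _)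
    obtain ⟨a, ha⟩ := h2
    obtain ⟨b, hb⟩ := hd
    apply hm
    have h3 : p ^ n * (p * (a * b)) = p ^ n * m := by
      rw [← hnm, ← h1, ha, hb]; ring
    have h4 := Nat.eq_of_mul_eq_mul_left (pow_pos hp.out.pos n) h3
    exact ⟨_, h4.symm⟩
  refine tate (U.map π) (P.map π) hPm hPidx ?_ (π x) (π y) ⟨x, hx, rfl⟩ ⟨y, hy, rfl⟩ hxp hyp
  rintro f ⟨_, z, hz, rfl⟩ hzU
  have hzU' : z ∈ U := by
    obtain ⟨u, hu, huz⟩ := hzU
    have : u⁻¹ * z ∈ V := (QuotientGroup.eq (s := V)).1 huz
    have h2 := U.mul_mem hu (hVU this)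
    simpa using h2
  let φ : P →* Multiplicative (ZMod p) := f.comp (π.subgroupMap P)
  have hφ : φ ∈ Chars p P := by
    show IsOpen (φ.ker : Set P)
    apply Subgroup.isOpen_mono (H₁ := V.subgroupOf P)
    · intro w hw
      rw [MonoidHom.mem_ker]
      have : π.subgroupMap P w = 1 := Subtype.ext ((QuotientGroup.eq_one_iff _).2 hw)
      show f (π.subgroupMap P w) = 1
      rw [this, map_one]
    · exact hVo.preimage continuous_subtype_val
  exact hU φ hφ ⟨z, hz⟩ hzU'

end

end Pool.Agent.H61.PF
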