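import Mathlib
import Pool.Agent.H61.PF.Max

/-!
# Only finitely many primes divide the order of a profinite group with the maximum condition
-/

namespace Pool.Agent.H61.PF

open Subgroup
open scoped Pointwise

lemma le_norm_of {G : Type*} [Group G] {H R : Subgroup G}
    (hHR : ∀ h ∈ H, ∀ x ∈ R, h * x * h⁻¹ ∈ R) : H ≤ Subgroup.normalizer (R : Set G) := by
  intro h hh
  rw [Subgroup.mem_normalizer_iff]
  intro x
  refine ⟨fun hx => hHR h hh x hx, fun hx => ?_⟩
  have := hHR h⁻¹ (H.inv_mem hh) _ hx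
  simpa [mul_assoc] using this

/-- extension of an `r`-group by a solvable group, product of subgroups -/
lemma solvable_sup {G : Type*} [Group G] [Finite G] {r : ℕ} [hr : Fact r.Prime] (H R : Subgroup G)
    (hH : Group.IsSolvable H) (hR : IsPGroup r R) (hHR : ∀ h ∈ H, ∀ x ∈ R, h * x * h⁻¹ ∈ R) :
    Group.IsSolvable (H ⊔ R : Subgroup G) ∧
      ∀ s : ℕ, s.Prime → s ∣ Nat.card (H ⊔ R : Subgroup G) → s ∣ Nat.card H ∨ s = r := by
  let K : Subgroup G := H ⊔ R
  have hHn := le_norm_of hHR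
  have hKN : K ≤ Subgroup.normalizer (R : Set G) := sup_le hHn Subgroup.le_normalizer
  have hRK : R ≤ K := le_sup_right
  have hHK : H ≤ K := le_sup_left
  have hn : (R.subgroupOf K).Normal := Subgroup.normal_subgroupOf_of_le_normalizer hKN
  let f : H →* K ⧸ (R.subgroupOf K) :=
    (QuotientGroup.mk' (R.subgroupOf K)).comp (Subgroup.inclusion hHK)
  have hsurj : Function.Surjective f := by
    intro q
    obtain ⟨⟨k, hk⟩, rfl⟩ := QuotientGroup.mk'_surjective _ q
    have : k ∈ ((H ⊔ R : Subgroup G) : Set G) := hk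
    rw [Subgroup.coe_mul_of_left_le_normalizer_right _ _ hHn] at this
    obtain ⟨h, hh, x, hx, rfl⟩ := this
    refine ⟨⟨h, hh⟩, ?_⟩
    refine (QuotientGroup.eq (s := R.subgroupOf K)).2 ?_
    rw [Subgroup.mem_subgroupOf]
    show h⁻¹ * (h * x) ∈ R
    rw [inv_mul_cancel_left]; exact hx
  have hR' : IsPGroup r (R.subgroupOf K) := hR.comap_of_injective K.subtype K.subtype_injective
  constructor
  · have h1 : Group.IsSolvable (K ⧸ (R.subgroupOf K)) := Group.isSolvable_of_surjective hsurj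
    have h2 : Group.IsSolvable (R.subgroupOf K) := by
      haveI := hR'.isNilpotent
      infer_instance
    exact (Group.isSolvable_iff_subgroup_quotient (R.subgroupOf K)).2 ⟨h2, h1⟩
  · intro s hs hd
    have h1 : Nat.card K = Nat.card (R.subgroupOf K) * (R.subgroupOf K).index :=
      (Subgroup.card_mul_index _).symm
    have hd' : s ∣ Nat.card K := hd
    rw [h1, Nat.Prime.dvd_mul hs] at hd'
    rcases hd' with hd' | hd'
    · right
      obtain ⟨n, hn⟩ := hR'.exists_card_eq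
      rw [hn] at hd'
      exact (Nat.prime_dvd_prime_iff_eq hs hr.out).1 (hs.dvd_of_dvd_pow hd')
    · left
      rw [Subgroup.index_eq_card] at hd'
      exact hd'.trans (Subgroup.card_dvd_of_surjective f hsurj)

section

variable {G : Type*} [Group G] [TopologicalSpace G] [IsTopologicalGroup G] [CompactSpace G]
  [T2Space G] [TotallyDisconnectedSpace G]

/-- order of the image in smaller quotients -/
lemma orderOf_mk_dvd {V W : Subgroup G} [V.Normal] [W.Normal] (h : W ≤ V) (x : G) :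
    orderOf (QuotientGroup.mk' V x) ∣ orderOf (QuotientGroup.mk' W x) := by
  apply orderOf_dvd_of_pow_eq_one
  have h1 : (QuotientGroup.mk' W x) ^ orderOf (QuotientGroup.mk' W x) = 1 := pow_orderOf_eq_one _
  rw [← map_pow] at h1 ⊢
  exact (QuotientGroup.eq_one_iff _).2 (h ((QuotientGroup.eq_one_iff _).1 h1))

/-- the largest normal pro-`p'` subgroup of a `p`-nilpotent open normal subgroup -/
def OP (p : ℕ) [hp : Fact p.Prime] (U : Subgroup G) (h : PNil p U) : Subgroup G where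
  carrier := {x | x ∈ U ∧ ∀ (V : Subgroup G) [V.Normal], IsOpen (V : Set G) → V ≤ U →
    ¬ p ∣ orderOf (QuotientGroup.mk' V x)}
  one_mem' := by
    refine ⟨U.one_mem, fun V _ _ _ => ?_⟩
    rw [map_one, orderOf_one]
    exact fun h => hp.out.one_lt.ne' (Nat.dvd_one.1 h)
  mul_mem' := by
    rintro a b ⟨ha, ha'⟩ ⟨hb, hb'⟩
    exact ⟨U.mul_mem ha hb, fun V _ hVo hVU => h V hVo hVU a ha b hb (ha' V hVo hVU) (hb' V hVo hVU)⟩
  inv_mem' := by
    rintro a ⟨ha, ha'⟩
    refine ⟨U.inv_mem ha, fun V _ hVo hVU => ?_⟩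
    rw [map_inv, orderOf_inv]
    exact ha' V hVo hVU

variable {p : ℕ} [hp : Fact p.Prime] {U : Subgroup G} (h : PNil p U)

lemma OP_le : OP p U h ≤ U := fun _ hx => hx.1

lemma OP_normal [hUn : U.Normal] : (OP p U h).Normal := by
  constructor
  rintro x ⟨hx, hx'⟩ g
  refine ⟨hUn.conj_mem x hx g, fun V hV hVo hVU => ?_⟩
  have : orderOf (QuotientGroup.mk' V (g * x * g⁻¹)) = orderOf (QuotientGroup.mk' V x) := by
    have h1 : QuotientGroup.mk' V (g * x * g⁻¹) =
        MulAut.conj (QuotientGroup.mk' V g) (QuotientGroup.mk' V x) := by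
      rw [map_mul, map_mul, map_inv, MulAut.conj_apply]
    rw [h1]
    exact MulEquiv.orderOf_eq _ _
  rw [this]
  exact hx' V hVo hVU

lemma OP_closed (hUo : IsOpen (U : Set G)) : IsClosed ((OP p U h : Subgroup G) : Set G) := by
  have : ((OP p U h : Subgroup G) : Set G) = (U : Set G) ∩ ⋂ (V : Subgroup G) (_ : V.Normal)
      (_ : IsOpen (V : Set G)) (_ : V ≤ U), {x | ¬ p ∣ orderOf (QuotientGroup.mk' V x)} := by
    ext x
    simp only [Set.mem_inter_iff, Set.mem_iInter]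
    exact ⟨fun hx => ⟨hx.1, fun V _ ho hle => hx.2 V ho hle⟩,
      fun hx => ⟨hx.1, fun V _ ho hle => hx.2 V ‹_› ho hle⟩⟩
  rw [this]
  refine (Subgroup.isClosed_of_isOpen U hUo).inter ?_
  refine isClosed_iInter fun V => isClosed_iInter fun hVn => isClosed_iInter fun hVo =>
    isClosed_iInter fun _ => ?_
  rw [← isOpen_compl_iff]
  rw [isOpen_iff_forall_mem_open]
  intro x hx
  refine ⟨(fun y => x⁻¹ * y) ⁻¹' (V : Set G), ?_, hVo.preimage (continuous_const_mul _), ?_⟩
  · intro y hy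
    have hxy : QuotientGroup.mk' V x = QuotientGroup.mk' V y := (QuotientGroup.eq (s := V)).2 hy
    have hx' : ¬ ¬ p ∣ orderOf (QuotientGroup.mk' V x) := hx
    show ¬ ¬ p ∣ orderOf (QuotientGroup.mk' V y)
    rw [← hxy]; exact hx'
  · show x⁻¹ * x ∈ V
    rw [inv_mul_cancel]; exact V.one_mem

lemma OP_orderOf (hUn : U.Normal) (hUo : IsOpen (U : Set G)) {x : G} (hx : x ∈ OP p U h)
    (V : Subgroup G) [hV : V.Normal] (hVo : IsOpen (V : Set G)) :
    ¬ p ∣ orderOf (QuotientGroup.mk' V x) := by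
  haveI : (V ⊓ U).Normal := inferInstance
  intro hd
  exact hx.2 (V ⊓ U) (hVo.inter hUo) inf_le_right (hd.trans (orderOf_mk_dvd inf_le_left x))

/-- **Finiteness of the set of primes.** -/
theorem finite_primes (hM : MaxClosed G) : ∃ S : Finset ℕ, ∀ (U : Subgroup G) [U.Normal],
    IsOpen (U : Set G) → ∀ r : ℕ, r.Prime → r ∣ Nat.card (G ⧸ U) → r ∈ S := by
  classical
  by_contra hcon
  push Not at hcon
  let 𝓗 : Set (Subgroup G) := {H | IsClosed (H : Set G) ∧
    (∀ (U : Subgroup G) [U.Normal], IsOpen (U : Set G) →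
      Group.IsSolvable (H.map (QuotientGroup.mk' U))) ∧
    ∃ π : Finset ℕ, ∀ (U : Subgroup G) [U.Normal], IsOpen (U : Set G) → ∀ r : ℕ, r.Prime →
      r ∣ Nat.card (H.map (QuotientGroup.mk' U)) → r ∈ π}
  have hbot : (⊥ : Subgroup G) ∈ 𝓗 := by
    refine ⟨by simp, ?_, ∅, ?_⟩
    · intro U _ _
      rw [Subgroup.map_bot]; infer_instance
    · intro U _ _ r hr hd
      rw [Subgroup.map_bot] at hd
      simp only [Subgroup.card_bot] at hd
      exact absurd (Nat.dvd_one.1 hd) hr.one_lt.ne'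
  obtain ⟨H, ⟨hHc, hHs, π, hHπ⟩, hmax⟩ := exists_max hM 𝓗 ⟨_, hbot⟩ (fun K hK => hK.1)
  -- the subgroups U_p
  have hU : ∀ p : ℕ, ∃ U : Subgroup G, U.Normal ∧ IsOpen (U : Set G) ∧
      (p.Prime → PNil p U) := by
    intro p
    by_cases hp : p.Prime
    · haveI : Fact p.Prime := ⟨hp⟩
      obtain ⟨U, h1, h2, h3⟩ := exists_PNil p (fun H _ _ => exists_topGen hM H)
      exact ⟨U, h1, h2, fun _ => h3⟩
    · exact ⟨⊤, inferInstance, isOpen_univ, fun h => absurd h hp⟩
  choose Uf hUn hUo hUP using hU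
  haveI := hUn
  -- a new prime
  let S : Finset ℕ := π ∪ π.biUnion (fun p => (Nat.card (G ⧸ Uf p)).primeFactors)
  obtain ⟨U, hUn', hUo', r, hr, hrU, hrS⟩ := hcon S
  haveI : Fact r.Prime := ⟨hr⟩
  have hrπ : r ∉ π := fun h => hrS (Finset.mem_union_left _ h)
  have hrUf : ∀ p ∈ π, ¬ r ∣ Nat.card (G ⧸ Uf p) := by
    intro p hp hd
    apply hrS
    apply Finset.mem_union_right
    rw [Finset.mem_biUnion]
    haveI := finite_quot (hUo p)
    exact ⟨p, hp, Nat.mem_primeFactors.2 ⟨hr, hd, Nat.card_pos.ne'⟩⟩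
  -- the normal subgroup L
  let 𝓛 : Set (Subgroup G) := {K | ∃ p, ∃ hp : p.Prime, p ∈ π ∧ K = @OP G _ _ p ⟨hp⟩ (Uf p) (hUP p hp)}
  let L : Subgroup G := sInf 𝓛
  have hLn : L.Normal := by
    constructor
    intro x hx g
    rw [Subgroup.mem_sInf] at hx ⊢
    rintro K ⟨p, hp, hpπ, rfl⟩
    haveI : Fact p.Prime := ⟨hp⟩
    exact (OP_normal (hUP p hp)).conj_mem x (hx _ ⟨p, hp, hpπ, rfl⟩) g
  have hLc : IsClosed (L : Set G) := by
    apply isClosed_sInf
    rintro K ⟨p, hp, hpπ, rfl⟩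
    haveI : Fact p.Prime := ⟨hp⟩
    exact OP_closed (hUP p hp) (hUo p)
  have hLord : ∀ p ∈ π, p.Prime → ∀ x ∈ L, ∀ (V : Subgroup G) [V.Normal], IsOpen (V : Set G) →
      ¬ p ∣ orderOf (QuotientGroup.mk' V x) := by
    intro p hpπ hp x hx V hV hVo
    haveI : Fact p.Prime := ⟨hp⟩
    have hx' := Subgroup.mem_sInf.1 hx _ ⟨p, hp, hpπ, rfl⟩
    exact OP_orderOf (hUP p hp) (hUn p) (hUo p) hx' V hVo
  -- Sylow pro-r subgroup of G
  obtain ⟨R0, -, hR0c, -, hR0p, hR0i⟩ := exists_proSylow (⊤ : Subgroup G) (⊥ : Subgroup G)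
    isClosed_univ (fun _ _ _ _ => trivial)
    (by intro U _ _; rw [Subgroup.map_bot]; infer_instance)
    (by intro U _ _; rw [Subgroup.map_bot]; simp) r
  have hR0L : R0 ≤ L := by
    intro x hx
    rw [Subgroup.mem_sInf]
    rintro K ⟨p, hp, hpπ, rfl⟩
    haveI : Fact p.Prime := ⟨hp⟩
    haveI := finite_quot (hUo p)
    have hord : ∀ (V : Subgroup G) [V.Normal], IsOpen (V : Set G) →
        ∃ k, orderOf (QuotientGroup.mk' V x) ∣ r ^ k := by
      intro V _ hVo
      obtain ⟨k, hk⟩ := hR0p V hVo x hx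
      refine ⟨k, orderOf_dvd_of_pow_eq_one ?_⟩
      rw [← map_pow]
      exact (QuotientGroup.eq_one_iff _).2 hk
    refine ⟨?_, ?_⟩
    · obtain ⟨k, hk⟩ := hord (Uf p) (hUo p)
      have h1 : orderOf (QuotientGroup.mk' (Uf p) x) ∣ Nat.card (G ⧸ Uf p) := orderOf_dvd_natCard _
      have h2 : Nat.Coprime (r ^ k) (Nat.card (G ⧸ Uf p)) :=
        Nat.Coprime.pow_left k ((Nat.Prime.coprime_iff_not_dvd hr).2 (hrUf p hpπ))
      have h3 := Nat.eq_one_of_dvd_coprimes h2 hk h1
      rw [orderOf_eq_one_iff] at h3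
      exact (QuotientGroup.eq_one_iff _).1 h3
    · intro V hV hVo _ hd
      obtain ⟨k, hk⟩ := hord V hVo
      have h4 : p = r := (Nat.prime_dvd_prime_iff_eq hp hr).1 (hp.dvd_of_dvd_pow (hd.trans hk))
      rw [h4] at hpπ
      exact hrπ hpπ
  -- H-invariant Sylow pro-r subgroup of L
  obtain ⟨R, hRL, hRc, hRH, hRp, hRi⟩ := exists_proSylow L H hLc
    (fun a _ x hx => hLn.conj_mem x hx a) hHs
    (by
      intro V hV hVo
      haveI := finite_quot hVo
      apply Nat.coprime_of_dvd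
      intro s hs hs1 hs2
      have hsπ := hHπ V hVo s hs hs1
      haveI : Fact s.Prime := ⟨hs⟩
      obtain ⟨⟨y, hy⟩, hxo⟩ := exists_prime_orderOf_dvd_card' s hs2
      rw [Subgroup.orderOf_mk] at hxo
      obtain ⟨x, hx, rfl⟩ := hy
      exact hLord s hsπ hs x hx V hVo (by rw [hxo])) r
  -- the larger group
  have hRH' : H ≤ Subgroup.normalizer (R : Set G) := le_norm_of hRH
  have hH' : (H ⊔ R) ∈ 𝓗 := by
    have hsol : ∀ (V : Subgroup G) [V.Normal], IsOpen (V : Set G) →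
        Group.IsSolvable ((H ⊔ R).map (QuotientGroup.mk' V)) ∧ ∀ s : ℕ, s.Prime →
          s ∣ Nat.card ((H ⊔ R).map (QuotientGroup.mk' V)) →
            s ∣ Nat.card (H.map (QuotientGroup.mk' V)) ∨ s = r := by
      intro V hV hVo
      haveI := finite_quot hVo
      rw [Subgroup.map_sup]
      apply solvable_sup
      · exact hHs V hVo
      · rintro ⟨_, z, hz, rfl⟩
        obtain ⟨k, hk⟩ := hRp V hVo z hz
        refine ⟨k, Subtype.ext ?_⟩
        show (QuotientGroup.mk' V z) ^ r ^ k = 1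
        rw [← map_pow]
        exact (QuotientGroup.eq_one_iff _).2 hk
      · rintro _ ⟨a, ha, rfl⟩ _ ⟨y, hy, rfl⟩
        exact ⟨a * y * a⁻¹, hRH a ha y hy, by simp⟩
    refine ⟨?_, fun V _ hVo => (hsol V hVo).1, insert r π, ?_⟩
    · rw [Subgroup.coe_mul_of_left_le_normalizer_right _ _ hRH']
      exact (hHc.isCompact.mul hRc.isCompact).isClosed
    · intro V _ hVo s hs hd
      rcases (hsol V hVo).2 s hs hd with h1 | h1
      · exact Finset.mem_insert_of_mem (hHπ V hVo s hs h1)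
      · rw [h1]; exact Finset.mem_insert_self _ _
  have heq := hmax _ hH' le_sup_left
  have hRleH : R ≤ H := by rw [← heq]; exact le_sup_right
  have h1 : r ^ 1 ∣ Nat.card ((⊤ : Subgroup G).map (QuotientGroup.mk' U)) := by
    rw [Subgroup.map_top_of_surjective _ (QuotientGroup.mk'_surjective U), Subgroup.card_top, pow_one]
    exact hrU
  haveI := finite_quot hUo'
  have h2 := hR0i U hUo' 1 h1
  have h3 : r ^ 1 ∣ Nat.card (L.map (QuotientGroup.mk' U)) :=
    h2.trans (Subgroup.card_dvd_of_le (Subgroup.map_mono hR0L))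
  have h4 := hRi U hUo' 1 h3
  have h5 : r ∣ Nat.card (H.map (QuotientGroup.mk' U)) := by
    rw [pow_one] at h4
    exact h4.trans (Subgroup.card_dvd_of_le (Subgroup.map_mono hRleH))
  exact hrπ (hHπ U hUo' r hr h5)

end

end Pool.Agent.H61.PF
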