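import Mathlib
import Pool.Agent.H61.PF.Primes

/-!
# Chains of closed subgroups of pro-`p` groups all of whose closed subgroups are finitely generated
-/

namespace Pool.Agent.H61.PF

open Subgroup
open scoped Pointwise

lemma exists_char {p : ℕ} [hp : Fact p.Prime] {Q : Type*} [Group Q] [Finite Q] (hQ : IsPGroup p Q)
    (A : Subgroup Q) (hA : A ≠ ⊤) :
    ∃ φ : Q →* Multiplicative (ZMod p), (∀ a ∈ A, φ a = 1) ∧ φ ≠ 1 := by
  classical
  obtain ⟨M, hM, hAM⟩ := (eq_top_or_exists_le_coatom A).resolve_left hA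
  haveI := hQ.isNilpotent
  have hMn : M.Normal := NormalizerCondition.normal_of_coatom M
    Group.normalizerCondition_of_isNilpotent hM
  have hnt : Nontrivial (Q ⧸ M) := QuotientGroup.nontrivial_iff.2 hM.1
  have hQM : IsPGroup p (Q ⧸ M) := hQ.to_quotient M
  have hbot : ∀ K : Subgroup (Q ⧸ M), K ≠ ⊥ → K = ⊤ := by
    intro K hK
    have h1 : M ≤ K.comap (QuotientGroup.mk' M) := by
      intro x hx
      rw [Subgroup.mem_comap]
      have : QuotientGroup.mk' M x = 1 := (QuotientGroup.eq_one_iff _).2 hx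
      rw [this]; exact one_mem _
    have h2 : M ≠ K.comap (QuotientGroup.mk' M) := by
      intro h
      apply hK
      rw [eq_bot_iff]
      intro y hy
      obtain ⟨x, rfl⟩ := QuotientGroup.mk'_surjective M y
      have : x ∈ K.comap (QuotientGroup.mk' M) := hy
      rw [← h] at this
      exact (QuotientGroup.eq_one_iff _).2 this
    have h3 := hM.2 _ (lt_of_le_of_ne h1 h2)
    rw [eq_top_iff]
    intro y _
    obtain ⟨x, rfl⟩ := QuotientGroup.mk'_surjective M y
    have : x ∈ K.comap (QuotientGroup.mk' M) := by rw [h3]; trivial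
    exact this
  have hc : Subgroup.center (Q ⧸ M) = ⊤ := hbot _ (hQM.bot_lt_center).ne'
  have hcard : Nat.card (Q ⧸ M) = p := by
    obtain ⟨n, hn, hnc⟩ := hQM.nontrivial_iff_card.1 hnt
    obtain ⟨x, hx⟩ := exists_prime_orderOf_dvd_card' (G := Q ⧸ M) p (by
      rw [hnc]; exact dvd_pow_self p hn.ne')
    have h4 : Subgroup.zpowers x = ⊤ := by
      apply hbot
      intro h
      rw [Subgroup.zpowers_eq_bot] at h
      rw [h, orderOf_one] at hx
      exact hp.out.one_lt.ne hx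
    rw [← Subgroup.card_top (G := Q ⧸ M), ← h4, Nat.card_zpowers, hx]
  let e : Q ⧸ M ≃* Multiplicative (ZMod p) := mulEquivOfPrimeCardEq hcard (by simp)
  refine ⟨e.toMonoidHom.comp (QuotientGroup.mk' M), ?_, ?_⟩
  · intro a ha
    have : QuotientGroup.mk' M a = 1 := (QuotientGroup.eq_one_iff _).2 (hAM ha)
    show e (QuotientGroup.mk' M a) = 1
    rw [this, map_one]
  · intro h
    obtain ⟨y, hy⟩ := exists_ne (1 : Q ⧸ M)
    obtain ⟨x, rfl⟩ := QuotientGroup.mk'_surjective M y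
    apply hy
    have h5 : e (QuotientGroup.mk' M x) = 1 := DFunLike.congr_fun h x
    exact (MulEquiv.map_eq_one_iff e).1 h5

section

variable {G : Type*} [Group G] [TopologicalSpace G] [IsTopologicalGroup G] [CompactSpace G]
  [T2Space G] [TotallyDisconnectedSpace G]

lemma isPGroup_map {p : ℕ} {P : Subgroup G} (hP : ProP p P) (U : Subgroup G) [U.Normal]
    (hU : IsOpen (U : Set G)) : IsPGroup p (P.map (QuotientGroup.mk' U)) := by
  rintro ⟨_, z, hz, rfl⟩
  obtain ⟨k, hk⟩ := hP U hU z hz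
  refine ⟨k, Subtype.ext ?_⟩
  show (QuotientGroup.mk' U z) ^ p ^ k = 1
  rw [← map_pow]
  exact (QuotientGroup.eq_one_iff _).2 hk

/-- a proper closed subgroup of a pro-`p` group is killed by a nontrivial character -/
lemma exists_char_top {p : ℕ} [hp : Fact p.Prime] {H A : Subgroup G} (hH : ProP p H)
    (hA : IsClosed (A : Set G)) (hAH : A < H) :
    ∃ φ ∈ Chars p H, (∀ a : H, (a : G) ∈ A → φ a = 1) ∧ φ ≠ 1 := by
  obtain ⟨x, hx, hxA⟩ := SetLike.exists_of_lt hAH
  obtain ⟨U, hUn, hUo, hU⟩ := exists_sep hA hxA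
  haveI := finite_quot hUo
  let π := QuotientGroup.mk' U
  obtain ⟨φ, hφA, hφ⟩ := exists_char (isPGroup_map hH U hUo) ((A.map π).subgroupOf (H.map π)) (by
    intro h
    rw [Subgroup.subgroupOf_eq_top] at h
    obtain ⟨a, ha, hax⟩ := h ⟨x, hx, rfl⟩
    exact hU a ha ((QuotientGroup.eq (s := U)).1 hax))
  refine ⟨φ.comp (π.subgroupMap H), ?_, ?_, ?_⟩
  · show IsOpen ((φ.comp (π.subgroupMap H)).ker : Set H)
    apply Subgroup.isOpen_mono (H₁ := U.subgroupOf H)
    · intro w hw
      rw [MonoidHom.mem_ker]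
      have : π.subgroupMap H w = 1 := Subtype.ext ((QuotientGroup.eq_one_iff _).2 hw)
      show φ (π.subgroupMap H w) = 1
      rw [this, map_one]
    · exact hUo.preimage continuous_subtype_val
  · intro a ha
    exact hφA _ (Subgroup.mem_subgroupOf.2 ⟨a, ha, rfl⟩)
  · intro h
    apply hφ
    ext1 y
    obtain ⟨z, rfl⟩ := π.subgroupMap_surjective H y
    exact DFunLike.congr_fun h z

/-- **Ascending chains in pro-`p` groups.** -/
theorem chain_proP {p : ℕ} [hp : Fact p.Prime] {P : Subgroup G} (hPc : IsClosed (P : Set G))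
    (hP : ProP p P)
    (hfg : ∀ H : Subgroup G, IsClosed (H : Set G) → H ≤ P → ∃ T : Set G, T.Finite ∧ TopGen H T)
    (H : ℕ → Subgroup G) (hH : ∀ n, IsClosed (H n : Set G)) (hm : Monotone H) (hHP : ∀ n, H n ≤ P) :
    ∃ n, ∀ m, n ≤ m → H n = H m := by
  classical
  let K : Subgroup G := (⨆ n, H n).topologicalClosure
  have hKc : IsClosed (K : Set G) := Subgroup.isClosed_topologicalClosure _
  have hKP : K ≤ P := Subgroup.topologicalClosure_minimal _ (iSup_le hHP) hPc
  have hHK : ∀ n, H n ≤ K := fun n => (le_iSup H n).trans (Subgroup.le_topologicalClosure _)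
  by_cases hex : ∃ n, H n = K
  · obtain ⟨n, hn⟩ := hex
    exact ⟨n, fun m hnm => le_antisymm (hm hnm) (by rw [hn]; exact hHK m)⟩
  exfalso
  push Not at hex
  obtain ⟨T, hT, hgen⟩ := hfg K hKc hKP
  have hfin := finite_chars (p := p) K hKc T hT hgen
  have hKp : ProP p K := fun U _ hU x hx => hP U hU x (hKP hx)
  have h1 : ∀ n, ∃ φ ∈ Chars p K, (∀ a : K, (a : G) ∈ H n → φ a = 1) ∧ φ ≠ 1 := fun n =>
    exists_char_top hKp (hH n) (lt_of_le_of_ne (hHK n) (hex n))
  choose φ hφ hφ1 hφ2 using h1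
  haveI := hfin.to_subtype
  obtain ⟨⟨ψ, hψ⟩, hψi⟩ := Finite.exists_infinite_fiber (fun n : ℕ => (⟨φ n, hφ n⟩ : Chars p K))
  have hψi' : {n : ℕ | φ n = ψ}.Infinite := by
    have := Set.infinite_coe_iff.1 hψi
    refine this.mono fun n hn => ?_
    exact congrArg Subtype.val hn
  have hψ1 : ∀ n, ∀ a : K, (a : G) ∈ H n → ψ a = 1 := by
    intro n a ha
    obtain ⟨m, hm1, hm2⟩ := hψi'.exists_gt n
    rw [← (show φ m = ψ from hm1)]
    exact hφ1 m a (hm hm2.le ha)
  obtain ⟨n0, hn0⟩ := hψi'.nonempty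
  have hne : ψ ≠ 1 := by rw [← (show φ n0 = ψ from hn0)]; exact hφ2 n0
  have hkc : IsClosed ((ψ.ker.map K.subtype : Subgroup G) : Set G) := by
    have : ((ψ.ker.map K.subtype : Subgroup G) : Set G) = Subtype.val '' (ψ.ker : Set K) := rfl
    rw [this]
    have h2 : IsClosed (ψ.ker : Set K) := Subgroup.isClosed_of_isOpen ψ.ker hψ
    exact hKc.isClosedEmbedding_subtypeVal.isClosedMap _ h2
  have hle : K ≤ ψ.ker.map K.subtype := by
    apply Subgroup.topologicalClosure_minimal _ _ hkc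
    apply iSup_le
    intro n x hx
    exact ⟨⟨x, hHK n hx⟩, hψ1 n ⟨x, hHK n hx⟩ hx, rfl⟩
  apply hne
  ext1 x
  obtain ⟨y, hy, hyx⟩ := hle x.2
  have : y = x := Subtype.ext hyx
  rw [← this]
  exact hy

end

end Pool.Agent.H61.PF
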