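import Mathlib
import Pool.Agent.H61.PF.Chain

/-!
# The structure of profinite groups with the maximum condition for closed subgroups
-/

namespace Pool.Agent.H61.PF

open Subgroup
open scoped Pointwise

section

variable {G : Type*} [Group G] [TopologicalSpace G] [IsTopologicalGroup G] [CompactSpace G]
  [T2Space G] [TotallyDisconnectedSpace G]

lemma PNil.mono {p : ℕ} {U N : Subgroup G} (h : PNil p U) (hN : N ≤ U) : PNil p N :=
  fun V _ hV hVN x hx y hy hxp hyp => h V hV (hVN.trans hN) x (hN hx) y (hN hy) hxp hyp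

/-- The set of pro-`p` elements. -/
def ProPSet (G : Type*) [Group G] [TopologicalSpace G] (p : ℕ) : Set G :=
  {x | ∀ (V : Subgroup G) [V.Normal], IsOpen (V : Set G) → ∃ k : ℕ, x ^ p ^ k ∈ V}

lemma orderOf_of_pow {p : ℕ} {V : Subgroup G} [V.Normal] {x : G} {k : ℕ} (h : x ^ p ^ k ∈ V) :
    orderOf (QuotientGroup.mk' V x) ∣ p ^ k := by
  apply orderOf_dvd_of_pow_eq_one
  rw [← map_pow]
  exact (QuotientGroup.eq_one_iff _).2 h

lemma isClosed_proPSet (p : ℕ) : IsClosed (ProPSet G p) := by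
  have : ProPSet G p = ⋂ (V : Subgroup G) (_ : V.Normal) (_ : IsOpen (V : Set G)),
      {x : G | ∃ k : ℕ, x ^ p ^ k ∈ V} := by
    ext x
    simp only [Set.mem_iInter]
    exact ⟨fun hx V _ ho => hx V ho, fun hx V _ ho => hx V ‹_› ho⟩
  rw [this]
  refine isClosed_iInter fun V => isClosed_iInter fun hVn => isClosed_iInter fun hVo => ?_
  rw [← isOpen_compl_iff, isOpen_iff_forall_mem_open]
  intro x hx
  refine ⟨(fun y => x⁻¹ * y) ⁻¹' (V : Set G), ?_, hVo.preimage (continuous_const_mul _), ?_⟩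
  · intro y hy hy2
    apply hx
    obtain ⟨k, hk⟩ := hy2
    refine ⟨k, ?_⟩
    have hxy : QuotientGroup.mk' V x = QuotientGroup.mk' V y := (QuotientGroup.eq (s := V)).2 hy
    have h1 : QuotientGroup.mk' V (y ^ p ^ k) = 1 := (QuotientGroup.eq_one_iff _).2 hk
    rw [map_pow, ← hxy, ← map_pow] at h1
    exact (QuotientGroup.eq_one_iff _).1 h1
  · show x⁻¹ * x ∈ V
    rw [inv_mul_cancel]; exact V.one_mem

/-- the Sylow pro-`p` subgroup of a pronilpotent open normal subgroup -/
def SylP (S : Finset ℕ) (N : Subgroup G) (hS : ∀ (U : Subgroup G) [U.Normal],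
    IsOpen (U : Set G) → ∀ r : ℕ, r.Prime → r ∣ Nat.card (G ⧸ U) → r ∈ S)
    (hNn : N.Normal) (hNo : IsOpen (N : Set G))
    (hN : ∀ r ∈ S, r.Prime → PNil r N) (p : ℕ) (hp : p.Prime) : Subgroup G where
  carrier := (N : Set G) ∩ ProPSet G p
  one_mem' := ⟨N.one_mem, fun V _ _ => ⟨0, by simp⟩⟩
  inv_mem' := by
    rintro x ⟨hx, hx'⟩
    refine ⟨N.inv_mem hx, fun V _ hV => ?_⟩
    obtain ⟨k, hk⟩ := hx' V hV
    exact ⟨k, by rw [inv_pow]; exact V.inv_mem hk⟩
  mul_mem' := by
    rintro x y ⟨hx, hx'⟩ ⟨hy, hy'⟩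
    refine ⟨N.mul_mem hx hy, fun V hVn hV => ?_⟩
    haveI : (V ⊓ N).Normal := inferInstance
    have hW : IsOpen ((V ⊓ N : Subgroup G) : Set G) := hV.inter hNo
    haveI := finite_quot hW
    obtain ⟨k, hk⟩ := hx' (V ⊓ N) hW
    obtain ⟨l, hl⟩ := hy' (V ⊓ N) hW
    have h1 : ∀ {q : ℕ}, q.Prime → q ∣ orderOf (QuotientGroup.mk' (V ⊓ N) (x * y)) → q = p := by
      intro q hq hqd
      by_contra hqp
      haveI : Fact q.Prime := ⟨hq⟩
      have hqS : q ∈ S := hS (V ⊓ N) hW q hq (hqd.trans (orderOf_dvd_natCard _))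
      refine hN q hqS hq (V ⊓ N) hW inf_le_right x hx y hy ?_ ?_ hqd
      · intro h
        exact hqp ((Nat.prime_dvd_prime_iff_eq hq hp).1
          (hq.dvd_of_dvd_pow (h.trans (orderOf_of_pow hk))))
      · intro h
        exact hqp ((Nat.prime_dvd_prime_iff_eq hq hp).1
          (hq.dvd_of_dvd_pow (h.trans (orderOf_of_pow hl))))
    obtain ⟨m, h2⟩ : ∃ m, orderOf (QuotientGroup.mk' (V ⊓ N) (x * y)) = p ^ m :=
      ⟨_, Nat.eq_prime_pow_of_unique_prime_dvd (orderOf_pos _).ne' h1⟩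
    refine ⟨m, ?_⟩
    have h3 : QuotientGroup.mk' (V ⊓ N) ((x * y) ^ orderOf (QuotientGroup.mk' (V ⊓ N) (x * y))) = 1 := by
      rw [map_pow]; exact pow_orderOf_eq_one _
    rw [h2] at h3
    exact ((QuotientGroup.eq_one_iff _).1 h3).1

omit [IsTopologicalGroup G] [CompactSpace G] [T2Space G] [TotallyDisconnectedSpace G] in
lemma maxClosed_sub {P : Subgroup G} (hP : IsClosed (P : Set G)) :
    MaxClosed P ↔ ∀ H : ℕ → Subgroup G, (∀ n, IsClosed (H n : Set G)) → Monotone H →
      (∀ n, H n ≤ P) → ∃ n, ∀ m, n ≤ m → H n = H m := by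
  constructor
  · intro h H hH hm hHP
    obtain ⟨n, hn⟩ := h (fun n => (H n).subgroupOf P)
      (fun n => (hH n).preimage continuous_subtype_val)
      (fun i j hij => Subgroup.comap_mono (hm hij))
    refine ⟨n, fun m hnm => le_antisymm (hm hnm) fun x hx => ?_⟩
    have h1 := hn m hnm
    have h2 : (⟨x, hHP m hx⟩ : P) ∈ (H n).subgroupOf P := by
      rw [h1]; exact Subgroup.mem_subgroupOf.2 hx
    exact Subgroup.mem_subgroupOf.1 h2
  · intro h H hH hm
    obtain ⟨n, hn⟩ := h (fun n => (H n).map P.subtype)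
      (fun n => by
        have : (((H n).map P.subtype : Subgroup G) : Set G) = Subtype.val '' (H n : Set P) := rfl
        rw [this]
        exact hP.isClosedEmbedding_subtypeVal.isClosedMap _ (hH n))
      (fun i j hij => Subgroup.map_mono (hm hij))
      (fun n => by
        rintro _ ⟨y, _, rfl⟩
        exact y.2)
    exact ⟨n, fun m hnm => Subgroup.map_injective P.subtype_injective (hn m hnm)⟩

lemma closed_sup (s : Finset ℕ) (P : ℕ → Subgroup G) (hn : ∀ p ∈ s, (P p).Normal)
    (hc : ∀ p ∈ s, IsClosed (P p : Set G)) :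
    IsClosed ((⨆ p ∈ s, P p : Subgroup G) : Set G) := by
  classical
  induction s using Finset.induction_on with
  | empty => simp
  | insert a s ha ih =>
    rw [Finset.iSup_insert]
    have h1 := ih (fun p hp => hn p (Finset.mem_insert_of_mem hp))
      (fun p hp => hc p (Finset.mem_insert_of_mem hp))
    haveI := hn a (Finset.mem_insert_self _ _)
    rw [Subgroup.normal_mul]
    exact ((hc a (Finset.mem_insert_self _ _)).isCompact.mul h1.isCompact).isClosed

/-- **Structure, forward direction.** -/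
theorem structure_of_sylow (hM : SylowCondition G) : Structure G := by
  classical
  obtain ⟨⟨S0, hS0⟩, hfg⟩ := hM
  let S := S0.filter Nat.Prime
  have hSp : ∀ p ∈ S, p.Prime := fun p hp => (Finset.mem_filter.1 hp).2
  have hS : ∀ (U : Subgroup G) [U.Normal], IsOpen (U : Set G) → ∀ r : ℕ, r.Prime →
      r ∣ Nat.card (G ⧸ U) → r ∈ S := fun U _ hU r hr hd => Finset.mem_filter.2 ⟨hS0 U hU r hr hd, hr⟩
  have hU : ∀ p : ℕ, ∃ U : Subgroup G, U.Normal ∧ IsOpen (U : Set G) ∧
      (p.Prime → PNil p U) := by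
    intro p
    by_cases hp : p.Prime
    · haveI : Fact p.Prime := ⟨hp⟩
      obtain ⟨U, h1, h2, h3⟩ := exists_PNil p (hfg p hp)
      exact ⟨U, h1, h2, fun _ => h3⟩
    · exact ⟨⊤, inferInstance, isOpen_univ, fun h => absurd h hp⟩
  choose Uf hUn hUo hUP using hU
  let N : Subgroup G := ⨅ p ∈ S, Uf p
  have hNn : N.Normal := by
    constructor
    intro x hx g
    simp only [N, Subgroup.mem_iInf] at hx ⊢
    intro p hp
    exact (hUn p).conj_mem x (hx p hp) g
  have hNo : IsOpen (N : Set G) := by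
    have : (N : Set G) = ⋂ p ∈ S, (Uf p : Set G) := by
      simp only [N, Subgroup.coe_iInf]
    rw [this]
    exact isOpen_biInter_finset fun p _ => hUo p
  have hNle : ∀ p ∈ S, N ≤ Uf p := fun p hp => iInf₂_le p hp
  have hNP : ∀ r ∈ S, r.Prime → PNil r N := fun r hr hrp => (hUP r hrp).mono (hNle r hr)
  let P : ℕ → Subgroup G := fun p => if hp : p.Prime then SylP S N hS hNn hNo hNP p hp else ⊥
  have hPmem : ∀ p, p.Prime → ∀ x, x ∈ P p ↔ x ∈ N ∧ x ∈ ProPSet G p := by
    intro p hp x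
    simp only [P, dif_pos hp]
    exact Iff.rfl
  have hPn : ∀ p ∈ S, (P p).Normal := by
    intro p hp
    constructor
    intro x hx g
    rw [hPmem p (hSp p hp)] at hx ⊢
    refine ⟨hNn.conj_mem x hx.1 g, fun V hV hVo => ?_⟩
    obtain ⟨k, hk⟩ := hx.2 V hVo
    refine ⟨k, ?_⟩
    rw [conj_pow]
    exact hV.conj_mem _ hk g
  have hPc : ∀ p ∈ S, IsClosed (P p : Set G) := by
    intro p hp
    have : (P p : Set G) = (N : Set G) ∩ ProPSet G p := by
      ext x; exact hPmem p (hSp p hp) x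
    rw [this]
    exact (Subgroup.isClosed_of_isOpen N hNo).inter (isClosed_proPSet p)
  have hPP : ∀ p ∈ S, ProP p (P p) := fun p hp U _ hU x hx => ((hPmem p (hSp p hp) x).1 hx).2 U hU
  refine ⟨S, P, hSp, fun p hp => ⟨hPn p hp, hPc p hp, hPP p hp, ?_⟩, ?_, ?_⟩
  · haveI : Fact p.Prime := ⟨hSp p hp⟩
    rw [maxClosed_sub (hPc p hp)]
    intro H hH hm hHP
    exact chain_proP (hPc p hp) (hPP p hp) (fun K hK hKP => hfg p (hSp p hp) K hK
      (fun U _ hU x hx => hPP p hp U hU x (hKP hx))) H hH hm hHP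
  · intro p hp q hq hpq x hx y hy
    have h1 : x * y * x⁻¹ * y⁻¹ ∈ P p := by
      have h := (P p).mul_mem hx ((hPn p hp).conj_mem _ ((P p).inv_mem hx) y)
      have e : x * (y * x⁻¹ * y⁻¹) = x * y * x⁻¹ * y⁻¹ := by group
      rwa [e] at h
    have h2 : x * y * x⁻¹ * y⁻¹ ∈ P q :=
      (P q).mul_mem ((hPn q hq).conj_mem _ hy x) ((P q).inv_mem hy)
    have h3 : x * y * x⁻¹ * y⁻¹ = 1 := by
      apply eq_one_of_forall
      intro U hUn' hUo'
      obtain ⟨k, hk⟩ := hPP p hp U hUo' _ h1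
      obtain ⟨l, hl⟩ := hPP q hq U hUo' _ h2
      have h4 := Nat.Coprime.pow k l ((Nat.coprime_primes (hSp p hp) (hSp q hq)).2 hpq)
      have h5 := Nat.eq_one_of_dvd_coprimes h4 (orderOf_of_pow hk) (orderOf_of_pow hl)
      rw [orderOf_eq_one_iff] at h5
      exact (QuotientGroup.eq_one_iff _).1 h5
    have h4 : x * y * x⁻¹ = y := by rwa [mul_inv_eq_one] at h3
    rwa [mul_inv_eq_iff_eq_mul] at h4
  · -- the product is all of N
    have hKc := closed_sup S P hPn hPc
    have hKN : (⨆ p ∈ S, P p : Subgroup G) ≤ N := iSup₂_le fun p hp x hx =>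
      ((hPmem p (hSp p hp) x).1 hx).1
    suffices h : N ≤ (⨆ p ∈ S, P p : Subgroup G) by
      rw [le_antisymm hKN h]; exact hNo
    intro x hx
    apply mem_of_forall hKc
    intro V hVn hVo
    haveI := finite_quot hVo
    let π := QuotientGroup.mk' V
    have hcard : Nat.card (N.map π) ∣ Nat.card ((⨆ p ∈ S, P p : Subgroup G).map π) := by
      rw [Nat.dvd_iff_prime_pow_dvd_dvd]
      intro r k hr hd
      by_cases hk : k = 0
      · rw [hk, pow_zero]; exact one_dvd _
      haveI : Fact r.Prime := ⟨hr⟩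
      have hrS : r ∈ S := by
        apply hS V hVo r hr
        exact ((dvd_pow_self r hk).trans hd).trans (Subgroup.card_subgroup_dvd_card _)
      obtain ⟨R, hRN, hRc, -, hRp, hRi⟩ := exists_proSylow N (⊥ : Subgroup G)
        (Subgroup.isClosed_of_isOpen N hNo)
        (fun a _ x hx => hNn.conj_mem x hx a)
        (by intro U _ _; rw [Subgroup.map_bot]; infer_instance)
        (by intro U _ _; rw [Subgroup.map_bot]; simp) r
      have hRP : R ≤ P r := fun z hz => (hPmem r hr z).2 ⟨hRN hz, fun W _ hW => hRp W hW z hz⟩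
      exact (hRi V hVo k hd).trans (Subgroup.card_dvd_of_le (Subgroup.map_mono
        (hRP.trans (le_iSup₂ (f := fun p (_ : p ∈ S) => P p) r hrS))))
    have hle : (⨆ p ∈ S, P p : Subgroup G).map π ≤ N.map π := Subgroup.map_mono hKN
    have heq : (⨆ p ∈ S, P p : Subgroup G).map π = N.map π :=
      Subgroup.eq_of_le_of_card_ge hle (Nat.le_of_dvd Nat.card_pos hcard)
    have hxm : π x ∈ (⨆ p ∈ S, P p : Subgroup G).map π := by rw [heq]; exact ⟨x, hx, rfl⟩
    obtain ⟨y, hy, hyx⟩ := hxm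
    exact ⟨y, hy, (QuotientGroup.eq (s := V)).1 hyx⟩

/-- decomposition of closed subgroups -/
lemma decomp (s : Finset ℕ) (P : ℕ → Subgroup G) (hp : ∀ p ∈ s, p.Prime)
    (hn : ∀ p ∈ s, (P p).Normal) (hP : ∀ p ∈ s, ProP p (P p))
    (hcomm : ∀ p ∈ s, ∀ q ∈ s, p ≠ q → ∀ x ∈ P p, ∀ y ∈ P q, x * y = y * x)
    (H : Subgroup G) (hH : IsClosed (H : Set G)) :
    (∀ (V : Subgroup G) [V.Normal], IsOpen (V : Set G) → ∀ v ∈ (⨆ p ∈ s, P p : Subgroup G),
      ∃ m : ℕ, (∀ q : ℕ, q.Prime → q ∣ m → q ∈ s) ∧ v ^ m ∈ V) ∧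
    H ⊓ (⨆ p ∈ s, P p : Subgroup G) ≤ ⨆ p ∈ s, (H ⊓ P p) := by
  classical
  induction s using Finset.induction_on with
  | empty =>
    constructor
    · intro V _ _ v hv
      simp only [Finset.notMem_empty, iSup_false, iSup_bot, Subgroup.mem_bot] at hv
      refine ⟨1, ?_, ?_⟩
      · intro q hq hd
        exact absurd (Nat.dvd_one.1 hd) hq.one_lt.ne'
      · rw [hv, one_pow]; exact V.one_mem
    · simp
  | insert a s ha ih =>
    obtain ⟨ih1, ih2⟩ := ih (fun p h => hp p (Finset.mem_insert_of_mem h))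
      (fun p h => hn p (Finset.mem_insert_of_mem h)) (fun p h => hP p (Finset.mem_insert_of_mem h))
      (fun p h q h' => hcomm p (Finset.mem_insert_of_mem h) q (Finset.mem_insert_of_mem h'))
    haveI := hn a (Finset.mem_insert_self _ _)
    have hap := hp a (Finset.mem_insert_self _ _)
    have hc : ∀ u ∈ P a, ∀ v ∈ (⨆ p ∈ s, P p : Subgroup G), Commute u v := by
      intro u hu v hv
      have : (⨆ p ∈ s, P p : Subgroup G) ≤ Subgroup.centralizer {u} := by
        refine iSup₂_le fun p hps y hy => ?_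
        rw [Subgroup.mem_centralizer_singleton_iff]
        have hne : a ≠ p := fun h => ha (h ▸ hps)
        exact (hcomm a (Finset.mem_insert_self _ _) p (Finset.mem_insert_of_mem hps) hne u hu y hy).symm
      have h := this hv
      rw [Subgroup.mem_centralizer_singleton_iff] at h
      exact h.symm
    have hdec : ∀ x ∈ (P a ⊔ ⨆ p ∈ s, P p : Subgroup G), ∃ u ∈ P a,
        ∃ v ∈ (⨆ p ∈ s, P p : Subgroup G), x = u * v := by
      intro x hx
      have hx' : x ∈ ((P a ⊔ ⨆ p ∈ s, P p : Subgroup G) : Set G) := hx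
      rw [Subgroup.normal_mul] at hx'
      obtain ⟨u, hu, v, hv, rfl⟩ := hx'
      exact ⟨u, hu, v, hv, rfl⟩
    rw [Finset.iSup_insert, Finset.iSup_insert]
    constructor
    · intro V hVn hVo x hx
      obtain ⟨u, hu, v, hv, rfl⟩ := hdec x hx
      obtain ⟨k, hk⟩ := hP a (Finset.mem_insert_self _ _) V hVo u hu
      obtain ⟨m, hm, hmv⟩ := ih1 V hVo v hv
      refine ⟨a ^ k * m, ?_, ?_⟩
      · intro q hq hd
        rcases (Nat.Prime.dvd_mul hq).1 hd with h | h
        · have := (Nat.prime_dvd_prime_iff_eq hq hap).1 (hq.dvd_of_dvd_pow h)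
          rw [this]; exact Finset.mem_insert_self _ _
        · exact Finset.mem_insert_of_mem (hm q hq h)
      · rw [(hc u hu v hv).mul_pow, pow_mul, mul_comm (a ^ k) m, pow_mul v]
        exact V.mul_mem (V.pow_mem hk m) (V.pow_mem hmv _)
    · rintro x ⟨hxH, hx⟩
      obtain ⟨u, hu, v, hv, rfl⟩ := hdec x hx
      have huH : u ∈ H := by
        apply mem_of_forall hH
        intro V hVn hVo
        obtain ⟨k, hk⟩ := hP a (Finset.mem_insert_self _ _) V hVo u hu
        obtain ⟨m, hm, hmv⟩ := ih1 V hVo v hv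
        have hcop : Nat.Coprime (a ^ k) m := by
          apply Nat.Coprime.pow_left
          rw [Nat.Prime.coprime_iff_not_dvd hap]
          exact fun h => ha (hm a hap h)
        obtain ⟨n, hn1, hn2⟩ := Nat.chineseRemainder hcop 1 0
        refine ⟨(u * v) ^ n, H.pow_mem hxH n, ?_⟩
        apply (QuotientGroup.eq (s := V)).1
        rw [(hc u hu v hv).mul_pow]
        have h1 : QuotientGroup.mk' V (u ^ n * v ^ n) = QuotientGroup.mk' V u := by
          rw [map_mul, map_pow, map_pow]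
          have h2 : (QuotientGroup.mk' V u) ^ n = (QuotientGroup.mk' V u) ^ 1 :=
            pow_eq_pow_iff_modEq.2 (hn1.of_dvd (orderOf_of_pow hk))
          have h3 : (QuotientGroup.mk' V v) ^ n = (QuotientGroup.mk' V v) ^ 0 := by
            apply pow_eq_pow_iff_modEq.2 (hn2.of_dvd _)
            apply orderOf_dvd_of_pow_eq_one
            rw [← map_pow]
            exact (QuotientGroup.eq_one_iff _).2 hmv
          rw [h2, h3, pow_one, pow_zero, mul_one]
        exact h1
      have hvH : v ∈ H := by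
        have := H.mul_mem (H.inv_mem huH) hxH
        rwa [inv_mul_cancel_left] at this
      exact Subgroup.mul_mem_sup ⟨huH, hu⟩ (ih2 ⟨hvH, hv⟩)

/-- **Structure, backward direction.** -/
theorem max_of_structure (h : Structure G) : MaxClosed G := by
  classical
  obtain ⟨S, P, hSp, hP, hcomm, hKo⟩ := h
  intro H hH hm
  let K : Subgroup G := ⨆ p ∈ S, P p
  have hKn : K.Normal := by
    haveI : ∀ p : S, (P p).Normal := fun p => (hP p p.2).1
    have h1 : K = ⨆ p : S, P p := by
      simp only [K]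
      rw [iSup_subtype]
    rw [h1]
    infer_instance
  haveI := finite_quot hKo
  -- stabilisation of the pieces
  have h1 : ∀ p ∈ S, ∃ n, ∀ m, n ≤ m → H n ⊓ P p = H m ⊓ P p := by
    intro p hp
    obtain ⟨hn, hc, hpp, hmax⟩ := hP p hp
    exact (maxClosed_sub hc).1 hmax (fun n => H n ⊓ P p) (fun n => (hH n).inter hc)
      (fun i j hij => inf_le_inf_right _ (hm hij)) (fun n => inf_le_right)
  choose! f hf using h1
  -- stabilisation of the images
  have h2 : ∃ n, ∀ m, n ≤ m → (H n).map (QuotientGroup.mk' K) = (H m).map (QuotientGroup.mk' K) := by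
    have := (wellFoundedGT_iff_monotone_chain_condition (α := Subgroup (G ⧸ K))).1 inferInstance
      ⟨fun n => (H n).map (QuotientGroup.mk' K), fun i j hij => Subgroup.map_mono (hm hij)⟩
    exact this
  obtain ⟨n0, hn0⟩ := h2
  let n1 := max n0 (S.sup f)
  refine ⟨n1, fun m hnm => le_antisymm (hm hnm) ?_⟩
  have h3 : H m ⊓ K ≤ H n1 := by
    refine (decomp S P hSp (fun p hp => (hP p hp).1) (fun p hp => (hP p hp).2.2.1) hcomm
      (H m) (hH m)).2.trans ?_
    refine iSup₂_le fun p hp => ?_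
    have hfn : f p ≤ n1 := (Finset.le_sup hp).trans (le_max_right _ _)
    rw [← hf p hp m (hfn.trans hnm)]
    exact inf_le_left.trans (hm hfn)
  intro x hx
  have h4 : (H n1).map (QuotientGroup.mk' K) = (H m).map (QuotientGroup.mk' K) := by
    rw [← hn0 n1 (le_max_left _ _), ← hn0 m ((le_max_left _ _).trans hnm)]
  have h5 : QuotientGroup.mk' K x ∈ (H n1).map (QuotientGroup.mk' K) := by rw [h4]; exact ⟨x, hx, rfl⟩
  obtain ⟨y, hy, hyx⟩ := h5
  have h6 : y⁻¹ * x ∈ K := (QuotientGroup.eq (s := K)).1 hyx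
  have h7 : y⁻¹ * x ∈ H n1 := h3 ⟨(H m).mul_mem ((H m).inv_mem (hm hnm hy)) hx, h6⟩
  have h8 := (H n1).mul_mem hy h7
  rwa [mul_inv_cancel_left] at h8

theorem sylow_of_max (hM : MaxClosed G) : SylowCondition G :=
  ⟨finite_primes hM, fun _ _ H _ _ => exists_topGen hM H⟩

theorem max_iff : (MaxClosed G ↔ Structure G) ∧ (MaxClosed G ↔ SylowCondition G) :=
  ⟨⟨fun h => structure_of_sylow (sylow_of_max h), max_of_structure⟩,
    sylow_of_max, fun h => max_of_structure (structure_of_sylow h)⟩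

end

end Pool.Agent.H61.PF
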