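import Mathlib
import Pool.Agent.H61.PF.Struct

/-!
# Soluble profinite groups with the maximum condition for closed subgroups
-/

namespace Pool.Agent.H61.PF

open Subgroup
open scoped Pointwise

lemma pow_mul_mem {Q : Type*} [Group Q] (D : Subgroup Q) (a r : Q) (ha : a ∈ D)
    (hr : ∀ y ∈ D, r * y * r⁻¹ ∈ D) (n : ℕ) : ∃ c ∈ D, (a * r) ^ n = c * r ^ n := by
  induction n with
  | zero => exact ⟨1, D.one_mem, by simp⟩
  | succ n ih =>
    obtain ⟨c, hc, h⟩ := ih
    have h1 : ∀ m : ℕ, r ^ m * a * (r ^ m)⁻¹ ∈ D := by
      intro m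
      induction m with
      | zero => simpa using ha
      | succ m ih =>
        have h2 := hr _ ih
        have h3 : r ^ (m + 1) * a * (r ^ (m + 1))⁻¹ = r * (r ^ m * a * (r ^ m)⁻¹) * r⁻¹ := by
          rw [pow_succ' r m]; group
        rw [h3]; exact h2
    refine ⟨c * (r ^ n * a * (r ^ n)⁻¹), D.mul_mem hc (h1 n), ?_⟩
    rw [pow_succ, h, pow_succ]
    group

section

variable {G : Type*} [Group G] [TopologicalSpace G] [IsTopologicalGroup G] [CompactSpace G]
  [T2Space G] [TotallyDisconnectedSpace G]

omit [IsTopologicalGroup G] [CompactSpace G] [TotallyDisconnectedSpace G] in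
lemma PolyPro.closed {A : Subgroup G} (h : PolyPro A) : IsClosed (A : Set G) := by
  cases h with
  | bot => simp
  | step _ _ _ _ _ _ hA => exact hA

/-- adding finitely many generators -/
lemma PolyPro.add {C C' : Subgroup G} (hC : PolyPro C) (hC' : IsClosed (C' : Set G)) (hle : C ≤ C')
    (hab : ∀ x ∈ C', ∀ y ∈ C', x * y * x⁻¹ * y⁻¹ ∈ C) {p : ℕ} (hp : p.Prime)
    (hpro : ∀ (V : Subgroup G) [V.Normal], IsOpen (V : Set G) → ∀ x ∈ C',
        ∃ k : ℕ, x ^ p ^ k ∈ C ⊔ V) (T : Set G) (hT : T.Finite) (hTC : T ⊆ C') :
    PolyPro (C ⊔ closure T).topologicalClosure := by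
  classical
  induction T, hT using Set.Finite.induction_on with
  | empty =>
    rw [Subgroup.closure_empty, sup_bot_eq]
    have : C.topologicalClosure = C :=
      le_antisymm (Subgroup.topologicalClosure_minimal _ le_rfl hC.closed)
        (Subgroup.le_topologicalClosure _)
    rw [this]
    exact hC
  | insert hat hfin ih =>
    rename_i a T
    have ih' := ih ((Set.subset_insert _ _).trans hTC)
    have hle' : (C ⊔ closure (insert a T)).topologicalClosure ≤ C' := by
      apply Subgroup.topologicalClosure_minimal _ _ hC'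
      exact sup_le hle ((Subgroup.closure_le _).2 hTC)
    have hBA : (C ⊔ closure T).topologicalClosure ≤ (C ⊔ closure (insert a T)).topologicalClosure :=
      Subgroup.topologicalClosure_mono
        (sup_le_sup_left (Subgroup.closure_mono (Set.subset_insert _ _)) _)
    have hCB : C ≤ (C ⊔ closure T).topologicalClosure :=
      le_sup_left.trans (Subgroup.le_topologicalClosure _)
    refine PolyPro.step _ _ p a hp ih' (Subgroup.isClosed_topologicalClosure _) hBA ?_ ?_ ?_ ?_
    · intro x hx y hy
      have h1 := hCB (hab x (hle' hx) y (hle' (hBA hy)))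
      have h2 := mul_mem h1 hy
      rwa [inv_mul_cancel_right] at h2
    · exact Subgroup.le_topologicalClosure _ (le_sup_right (a := C)
        (Subgroup.subset_closure (Set.mem_insert _ _)))
    · intro L hL haL hBL
      apply Subgroup.topologicalClosure_minimal _ _ hL
      refine sup_le (hCB.trans hBL) ((Subgroup.closure_le _).2 ?_)
      refine Set.insert_subset haL ?_
      intro z hz
      exact hBL (Subgroup.le_topologicalClosure _ (le_sup_right (a := C)
        (Subgroup.subset_closure hz)))
    · intro V _ hV x hx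
      obtain ⟨k, hk⟩ := hpro V hV x (hle' hx)
      exact ⟨k, sup_le_sup_right hCB V hk⟩

/-- one abelian step -/
lemma PolyPro.abelian (hM : MaxClosed G) {A B : Subgroup G} (hB : PolyPro B)
    (hA : IsClosed (A : Set G)) (hBA : B ≤ A) (hab : ∀ x ∈ A, ∀ y ∈ A, x * y * x⁻¹ * y⁻¹ ∈ B) :
    PolyPro A := by
  classical
  obtain ⟨S0, hS0⟩ := finite_primes hM
  let S := S0.filter Nat.Prime
  have hSp : ∀ p ∈ S, p.Prime := fun p hp => (Finset.mem_filter.1 hp).2
  have hS : ∀ (U : Subgroup G) [U.Normal], IsOpen (U : Set G) → ∀ r : ℕ, r.Prime →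
      r ∣ Nat.card (G ⧸ U) → r ∈ S := fun U _ hU r hr hd => Finset.mem_filter.2 ⟨hS0 U hU r hr hd, hr⟩
  have hR : ∀ p : ℕ, ∃ R : Subgroup G, R ≤ A ∧ IsClosed (R : Set G) ∧ ProP p R ∧
      (p.Prime → ∀ (U : Subgroup G) [U.Normal], IsOpen (U : Set G) → ∀ n,
        p ^ n ∣ Nat.card (A.map (QuotientGroup.mk' U)) →
        p ^ n ∣ Nat.card (R.map (QuotientGroup.mk' U))) := by
    intro p
    by_cases hp : p.Prime
    · haveI : Fact p.Prime := ⟨hp⟩
      obtain ⟨R, hRN, hRc, -, hRp, hRi⟩ := exists_proSylow A (⊥ : Subgroup G) hA
        (by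
          intro a ha x hx
          rw [Subgroup.mem_bot] at ha
          rw [ha]; simpa using hx)
        (by intro U _ _; rw [Subgroup.map_bot]; infer_instance)
        (by intro U _ _; rw [Subgroup.map_bot]; simp) p
      exact ⟨R, hRN, hRc, hRp, fun _ => hRi⟩
    · refine ⟨⊥, bot_le, by simp, ?_, fun h => absurd h hp⟩
      intro U _ _ x hx
      rw [Subgroup.mem_bot] at hx
      exact ⟨0, by rw [hx, one_pow]; exact U.one_mem⟩
  choose R hRA hRc hRp hRi using hR
  have key : ∀ s : Finset ℕ, s ⊆ S → PolyPro (B ⊔ ⨆ p ∈ s, R p).topologicalClosure := by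
    intro s
    induction s using Finset.induction_on with
    | empty =>
      intro _
      simp only [Finset.notMem_empty, iSup_false, iSup_bot, sup_bot_eq]
      have : B.topologicalClosure = B :=
        le_antisymm (Subgroup.topologicalClosure_minimal _ le_rfl hB.closed)
          (Subgroup.le_topologicalClosure _)
      rw [this]
      exact hB
    | insert a s ha ih =>
      intro hs
      have ih' := ih ((Finset.subset_insert _ _).trans hs)
      have haS : a ∈ S := hs (Finset.mem_insert_self _ _)
      let C := (B ⊔ ⨆ p ∈ s, R p).topologicalClosure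
      let C' := (B ⊔ ⨆ p ∈ insert a s, R p).topologicalClosure
      have hBC : B ≤ C := le_sup_left.trans (Subgroup.le_topologicalClosure _)
      have hC'A : C' ≤ A := Subgroup.topologicalClosure_minimal _
        (sup_le hBA (iSup₂_le fun p _ => hRA p)) hA
      have hCC' : C ≤ C' := by
        apply Subgroup.topologicalClosure_mono
        apply sup_le_sup_left
        rw [Finset.iSup_insert]
        exact le_sup_right
      have hRC' : R a ≤ C' := by
        refine le_trans ?_ (Subgroup.le_topologicalClosure _)
        rw [Finset.iSup_insert]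
        exact le_sup_left.trans le_sup_right
      have hnorm : ∀ x ∈ A, ∀ y ∈ C, x * y * x⁻¹ ∈ C := by
        intro x hx y hy
        have h1 := C.mul_mem (hBC (hab x hx y (hC'A (hCC' hy)))) hy
        rwa [inv_mul_cancel_right] at h1
      have hsup : C' ≤ (C ⊔ R a).topologicalClosure := by
        apply Subgroup.topologicalClosure_mono
        rw [Finset.iSup_insert]
        refine sup_le (hBC.trans le_sup_left) (sup_le le_sup_right ?_)
        exact (le_sup_right.trans (Subgroup.le_topologicalClosure _)).trans (le_sup_left (a := C))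
      obtain ⟨T, hT, hTR, hgen⟩ := exists_topGen hM (R a)
      have h2 := PolyPro.add (C := C) (C' := C') ih' (Subgroup.isClosed_topologicalClosure _) hCC'
        (fun x hx y hy => hBC (hab x (hC'A hx) y (hC'A hy))) (hSp a haS) (by
          intro V hVn hV x hx
          have hopen : IsOpen (((C ⊔ R a) ⊔ V : Subgroup G) : Set G) :=
            Subgroup.isOpen_mono (le_sup_right) hV
          have h3 : x ∈ (C ⊔ R a) ⊔ V :=
            (hsup.trans (Subgroup.topologicalClosure_minimal _ le_sup_left
              (Subgroup.isClosed_of_isOpen _ hopen))) hx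
          have h4 : x ∈ (((C ⊔ R a) ⊔ V : Subgroup G) : Set G) := h3
          rw [Subgroup.mul_normal] at h4
          obtain ⟨y, hy, v, hv, rfl⟩ := h4
          have hRn : R a ≤ Subgroup.normalizer (C : Set G) :=
            le_norm_of (fun h hh z hz => hnorm h (hRA a hh) z hz)
          have hy' : y ∈ ((C ⊔ R a : Subgroup G) : Set G) := hy
          rw [Subgroup.coe_mul_of_right_le_normalizer_left _ _ hRn] at hy'
          obtain ⟨c, hc, r, hr, rfl⟩ := hy'
          obtain ⟨k, hk⟩ := hRp a V hV r hr
          refine ⟨k, ?_⟩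
          let π := QuotientGroup.mk' V
          obtain ⟨d, hd, hde⟩ := pow_mul_mem (C.map π) (π c) (π r) ⟨c, hc, rfl⟩ (by
            rintro _ ⟨z, hz, rfl⟩
            exact ⟨r * z * r⁻¹, hnorm r (hRA a hr) z hz, by simp⟩) (a ^ k)
          obtain ⟨e, he, rfl⟩ := hd
          have h5 : π r ^ a ^ k = 1 := by
            rw [← map_pow]; exact (QuotientGroup.eq_one_iff _).2 hk
          have h6 : π v = 1 := (QuotientGroup.eq_one_iff _).2 hv
          have h7 : π ((c * r * v) ^ a ^ k) = π e := by
            rw [map_pow, map_mul, map_mul, h6, mul_one, hde, h5, mul_one]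
          have h8 : e⁻¹ * (c * r * v) ^ a ^ k ∈ V := (QuotientGroup.eq (s := V)).1 h7.symm
          have h9 := (C ⊔ V).mul_mem (le_sup_left (a := C) (b := V) he)
            (le_sup_right (a := C) (b := V) h8)
          rwa [mul_inv_cancel_left] at h9) T hT (hTR.trans hRC')
      have h3 : (C ⊔ closure T).topologicalClosure = C' := by
        apply le_antisymm
        · apply Subgroup.topologicalClosure_minimal _ _ (Subgroup.isClosed_topologicalClosure _)
          exact sup_le hCC' ((Subgroup.closure_le _).2 (hTR.trans hRC'))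
        · refine hsup.trans ?_
          apply Subgroup.topologicalClosure_minimal _ _ (Subgroup.isClosed_topologicalClosure _)
          refine sup_le (le_sup_left.trans (Subgroup.le_topologicalClosure _)) ?_
          apply hgen _ (Subgroup.isClosed_topologicalClosure _)
          intro z hz
          exact Subgroup.le_topologicalClosure _ (le_sup_right (a := C) (Subgroup.subset_closure hz))
      rw [h3] at h2
      exact h2
  have h1 := key S (Finset.Subset.refl _)
  have h2 : (B ⊔ ⨆ p ∈ S, R p).topologicalClosure = A := by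
    have hle : (B ⊔ ⨆ p ∈ S, R p).topologicalClosure ≤ A := Subgroup.topologicalClosure_minimal _
        (sup_le hBA (iSup₂_le fun p _ => hRA p)) hA
    refine le_antisymm hle ?_
    intro x hx
    apply mem_of_forall (Subgroup.isClosed_topologicalClosure _)
    intro V hVn hVo
    haveI := finite_quot hVo
    let π := QuotientGroup.mk' V
    let K := (B ⊔ ⨆ p ∈ S, R p).topologicalClosure
    have hcard : Nat.card (A.map π) ∣ Nat.card (K.map π) := by
      rw [Nat.dvd_iff_prime_pow_dvd_dvd]
      intro r k hr hd
      by_cases hk : k = 0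
      · rw [hk, pow_zero]; exact one_dvd _
      have hrS : r ∈ S := by
        apply hS V hVo r hr
        exact ((dvd_pow_self r hk).trans hd).trans (Subgroup.card_subgroup_dvd_card _)
      exact (hRi r hr V hVo k hd).trans (Subgroup.card_dvd_of_le (Subgroup.map_mono
        (((le_iSup₂ (f := fun p (_ : p ∈ S) => R p) r hrS).trans le_sup_right).trans
          (Subgroup.le_topologicalClosure _))))
    have heq : K.map π = A.map π :=
      Subgroup.eq_of_le_of_card_ge (Subgroup.map_mono hle) (Nat.le_of_dvd Nat.card_pos hcard)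
    have hxm : π x ∈ K.map π := by rw [heq]; exact ⟨x, hx, rfl⟩
    obtain ⟨y, hy, hyx⟩ := hxm
    exact ⟨y, hy, (QuotientGroup.eq (s := V)).1 hyx⟩
  rw [h2] at h1
  exact h1

/-- closures of the terms of the derived series -/
lemma comm_closure (i : ℕ) : ∀ x ∈ (derivedSeries G i).topologicalClosure,
    ∀ y ∈ (derivedSeries G i).topologicalClosure,
      x * y * x⁻¹ * y⁻¹ ∈ (derivedSeries G (i + 1)).topologicalClosure := by
  have hcl : IsClosed (((derivedSeries G (i + 1)).topologicalClosure : Subgroup G) : Set G) :=
    Subgroup.isClosed_topologicalClosure _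
  have h1 : ∀ x ∈ derivedSeries G i, ∀ y ∈ (derivedSeries G i).topologicalClosure,
      x * y * x⁻¹ * y⁻¹ ∈ (derivedSeries G (i + 1)).topologicalClosure := by
    intro x hx y hy
    have hc : IsClosed {y : G | x * y * x⁻¹ * y⁻¹ ∈ (derivedSeries G (i + 1)).topologicalClosure} :=
      hcl.preimage (by fun_prop)
    refine closure_minimal (s := (derivedSeries G i : Set G)) ?_ hc hy
    intro z hz
    apply Subgroup.le_topologicalClosure
    rw [derivedSeries_succ]
    exact Subgroup.commutator_mem_commutator hx hz
  intro x hx y hy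
  have hc : IsClosed {x : G | x * y * x⁻¹ * y⁻¹ ∈ (derivedSeries G (i + 1)).topologicalClosure} :=
    hcl.preimage (by fun_prop)
  refine closure_minimal (s := (derivedSeries G i : Set G)) ?_ hc hx
  intro z hz
  exact h1 z hz y hy

theorem polyPro_of_max (hM : MaxClosed G) [hs : Group.IsSolvable G] : PolyPro (⊤ : Subgroup G) := by
  obtain ⟨n, hn⟩ := hs.solvable
  have h : ∀ j, j ≤ n → PolyPro (derivedSeries G (n - j)).topologicalClosure := by
    intro j
    induction j with
    | zero =>
      intro _
      rw [Nat.sub_zero, hn]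
      have : (⊥ : Subgroup G).topologicalClosure = ⊥ :=
        le_antisymm (Subgroup.topologicalClosure_minimal _ le_rfl (by simp)) bot_le
      rw [this]
      exact PolyPro.bot
    | succ j ih =>
      intro hj
      have h1 := ih (by omega)
      have h2 : n - j = (n - (j + 1)) + 1 := by omega
      rw [h2] at h1
      refine h1.abelian hM (Subgroup.isClosed_topologicalClosure _) ?_ (comm_closure _)
      apply Subgroup.topologicalClosure_mono
      exact derivedSeries_antitone G (Nat.le_succ _)
  have h1 := h n le_rfl
  rw [Nat.sub_self, derivedSeries_zero] at h1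
  have : (⊤ : Subgroup G).topologicalClosure = ⊤ := top_le_iff.1 (Subgroup.le_topologicalClosure _)
  rw [this] at h1
  exact h1

end

end Pool.Agent.H61.PF
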