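import Mathlib
import Pool.Agent.H61.PF.Poly

/-!
# Groups with a procyclic pro-`p` series satisfy the maximum condition
-/

namespace Pool.Agent.H61.PF

open Subgroup
open scoped Pointwise

/-- in a finite cyclic `p`-group the cyclic subgroups form a chain -/
lemma mem_zpowers_or {p : ℕ} [hp : Fact p.Prime] {Q : Type*} [Group Q] [Finite Q] (hQ : IsPGroup p Q)
    (t : Q) (ht : ∀ x : Q, x ∈ zpowers t) (x y : Q) : x ∈ zpowers y ∨ y ∈ zpowers x := by
  classical
  have : Fintype Q := Fintype.ofFinite Q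
  haveI : IsCyclic Q := ⟨t, ht⟩
  have key : ∀ x y : Q, orderOf x ∣ orderOf y → x ∈ zpowers y := by
    intro x y hxy
    have h1 : Finset.univ.filter (fun z : Q => z ∈ zpowers y) ⊆
        Finset.univ.filter (fun z : Q => z ^ orderOf y = 1) := by
      intro z hz
      rw [Finset.mem_filter] at hz ⊢
      refine ⟨hz.1, ?_⟩
      obtain ⟨k, rfl⟩ := hz.2
      show (y ^ k) ^ orderOf y = 1
      rw [← zpow_natCast, ← zpow_mul, mul_comm, zpow_mul, zpow_natCast, pow_orderOf_eq_one, one_zpow]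
    have h2 : (Finset.univ.filter (fun z : Q => z ^ orderOf y = 1)).card ≤ orderOf y :=
      IsCyclic.card_pow_eq_one_le (orderOf_pos y)
    have h3 : (Finset.univ.filter (fun z : Q => z ∈ zpowers y)).card = orderOf y := by
      rw [← Nat.card_zpowers, Nat.card_eq_fintype_card]
      exact (Fintype.card_subtype _).symm
    have h4 := Finset.eq_of_subset_of_card_le h1 (by rw [h3]; exact h2)
    have h5 : x ∈ Finset.univ.filter (fun z : Q => z ^ orderOf y = 1) := by
      rw [Finset.mem_filter]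
      exact ⟨Finset.mem_univ _, orderOf_dvd_iff_pow_eq_one.1 hxy⟩
    rw [← h4, Finset.mem_filter] at h5
    exact h5.2
  obtain ⟨a, ha⟩ := (IsPGroup.iff_orderOf.1 hQ) x
  obtain ⟨b, hb⟩ := (IsPGroup.iff_orderOf.1 hQ) y
  rcases le_total a b with h | h
  · left; apply key; rw [ha, hb]; exact pow_dvd_pow p h
  · right; apply key; rw [ha, hb]; exact pow_dvd_pow p h

section

variable {G : Type*} [Group G] [TopologicalSpace G] [IsTopologicalGroup G] [CompactSpace G]
  [T2Space G] [TotallyDisconnectedSpace G]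

/-- Ascending chains of closed subgroups of `A` stabilise. -/
def MaxIn (A : Subgroup G) : Prop :=
  ∀ H : ℕ → Subgroup G, (∀ n, IsClosed (H n : Set G)) → Monotone H →
      (∀ n, H n ≤ A) → ∃ n, ∀ m, n ≤ m → H n = H m

/-- the key step: between `B` and `A` -/
lemma between {A B : Subgroup G} {p : ℕ} {t : G} (hp : p.Prime) (hA : IsClosed (A : Set G))
    (hBc : IsClosed (B : Set G)) (hBA : B ≤ A)
    (hn : ∀ x ∈ A, ∀ y ∈ B, x * y * x⁻¹ ∈ B) (ht : t ∈ A)
    (hgen : ∀ L : Subgroup G, IsClosed (L : Set G) → t ∈ L → B ≤ L → A ≤ L)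
    (hpro : ∀ (V : Subgroup G) [V.Normal], IsOpen (V : Set G) → ∀ x ∈ A,
        ∃ k : ℕ, x ^ p ^ k ∈ B ⊔ V) (C : Subgroup G) (hC : IsClosed (C : Set G)) (hBC : B ≤ C)
    (hCA : C ≤ A) (V₀ : Subgroup G) [hV₀ : V₀.Normal] (hV₀o : IsOpen (V₀ : Set G)) (x : G) (hx : x ∈ C)
    (hxV : x ∉ B ⊔ V₀) : A ⊓ V₀ ≤ C := by
  classical
  haveI : Fact p.Prime := ⟨hp⟩
  rintro y ⟨hyA, hyV⟩
  apply mem_of_forall hC
  intro V hVn hVo
  let W : Subgroup G := V ⊓ V₀
  have hWo : IsOpen (W : Set G) := hVo.inter hV₀o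
  haveI hWn : W.Normal := inferInstance
  haveI := finite_quot hWo
  let NA : Subgroup A := (B ⊔ W).subgroupOf A
  have hNAn : NA.Normal := by
    constructor
    rintro ⟨z, hz⟩ hzN ⟨g, hg⟩
    rw [Subgroup.mem_subgroupOf] at hzN ⊢
    have hzN' : z ∈ ((B ⊔ W : Subgroup G) : Set G) := hzN
    rw [Subgroup.mul_normal] at hzN'
    obtain ⟨b, hb, w, hw, rfl⟩ := hzN'
    show g * (b * w) * g⁻¹ ∈ B ⊔ W
    have e : g * (b * w) * g⁻¹ = (g * b * g⁻¹) * (g * w * g⁻¹) := by group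
    rw [e]
    exact Subgroup.mul_mem_sup (hn g hg b hb) (hWn.conj_mem w hw g)
  have hNAo : IsOpen (NA : Set A) := by
    apply Subgroup.isOpen_mono (H₁ := W.subgroupOf A)
    · exact Subgroup.comap_mono le_sup_right
    · exact hWo.preimage continuous_subtype_val
  haveI : CompactSpace A := isCompact_iff_compactSpace.1 hA.isCompact
  haveI hfin : Finite (A ⧸ NA) := Subgroup.quotient_finite_of_isOpen NA hNAo
  have hpg : IsPGroup p (A ⧸ NA) := by
    intro q
    obtain ⟨⟨z, hz⟩, rfl⟩ := QuotientGroup.mk'_surjective NA q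
    obtain ⟨k, hk⟩ := hpro W hWo z hz
    refine ⟨k, ?_⟩
    rw [← map_pow]
    exact (QuotientGroup.eq_one_iff _).2 hk
  have hcyc : ∀ q : A ⧸ NA, q ∈ zpowers (QuotientGroup.mk' NA ⟨t, ht⟩) := by
    let L : Subgroup A := (zpowers (QuotientGroup.mk' NA ⟨t, ht⟩)).comap (QuotientGroup.mk' NA)
    have hNL : NA ≤ L := by
      intro z hz
      rw [Subgroup.mem_comap]
      have : QuotientGroup.mk' NA z = 1 := (QuotientGroup.eq_one_iff _).2 hz
      rw [this]; exact one_mem _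
    have hLo : IsOpen (L : Set A) := Subgroup.isOpen_mono hNL hNAo
    have hLc : IsClosed (L : Set A) := Subgroup.isClosed_of_isOpen L hLo
    have hLm : IsClosed ((L.map A.subtype : Subgroup G) : Set G) := by
      have : ((L.map A.subtype : Subgroup G) : Set G) = Subtype.val '' (L : Set A) := rfl
      rw [this]
      exact hA.isClosedEmbedding_subtypeVal.isClosedMap _ hLc
    have h1 : A ≤ L.map A.subtype := by
      apply hgen _ hLm
      · refine ⟨⟨t, ht⟩, ?_, rfl⟩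
        exact Subgroup.mem_zpowers _
      · intro b hb
        exact ⟨⟨b, hBA hb⟩, hNL (le_sup_left (a := B) (b := W) hb), rfl⟩
    intro q
    obtain ⟨⟨z, hz⟩, rfl⟩ := QuotientGroup.mk'_surjective NA q
    obtain ⟨z', hz', hzz⟩ := h1 hz
    have : z' = ⟨z, hz⟩ := Subtype.ext hzz
    rw [← this]
    exact hz'
  rcases mem_zpowers_or hpg _ hcyc (QuotientGroup.mk' NA ⟨x, hCA hx⟩) (QuotientGroup.mk' NA ⟨y, hyA⟩)
    with h | h
  · exfalso
    obtain ⟨k, hk⟩ := h
    have h1 : QuotientGroup.mk' NA (⟨y, hyA⟩ ^ k) = QuotientGroup.mk' NA ⟨x, hCA hx⟩ := by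
      rw [map_zpow]; exact hk
    have h2 : (⟨y, hyA⟩ ^ k)⁻¹ * ⟨x, hCA hx⟩ ∈ NA := (QuotientGroup.eq (s := NA)).1 h1
    have h3 : (y ^ k)⁻¹ * x ∈ B ⊔ W := h2
    apply hxV
    have h4 : (y ^ k)⁻¹ * x ∈ B ⊔ V₀ := (sup_le_sup_left (inf_le_right) B) h3
    have h5 := (B ⊔ V₀).mul_mem (le_sup_right (a := B) (b := V₀) (V₀.zpow_mem hyV k)) h4
    rwa [mul_inv_cancel_left] at h5
  · obtain ⟨k, hk⟩ := h
    have h1 : QuotientGroup.mk' NA (⟨x, hCA hx⟩ ^ k) = QuotientGroup.mk' NA ⟨y, hyA⟩ := by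
      rw [map_zpow]; exact hk
    have h2 : (⟨x, hCA hx⟩ ^ k)⁻¹ * ⟨y, hyA⟩ ∈ NA := (QuotientGroup.eq (s := NA)).1 h1
    have h3 : (x ^ k)⁻¹ * y ∈ ((B ⊔ W : Subgroup G) : Set G) := h2
    rw [Subgroup.mul_normal] at h3
    obtain ⟨b, hb, w, hw, hbw⟩ := h3
    refine ⟨x ^ k * b, C.mul_mem (C.zpow_mem hx k) (hBC hb), ?_⟩
    have h4 : (x ^ k * b)⁻¹ * y = w := by
      have hbw' : b * w = (x ^ k)⁻¹ * y := hbw
      rw [mul_inv_rev, mul_assoc, ← hbw', inv_mul_cancel_left]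
    rw [h4]
    exact hw.1

lemma maxIn_of_polyPro {A : Subgroup G} (h : PolyPro A) : MaxIn A := by
  classical
  induction h with
  | bot =>
    intro H _ _ hH
    exact ⟨0, fun m _ => by rw [le_bot_iff.1 (hH 0), le_bot_iff.1 (hH m)]⟩
  | step A B p t hp hB hA hBA hn ht hgen hpro ih =>
    intro H hH hm hHA
    have hBc := hB.closed
    obtain ⟨n1, hn1⟩ := ih (fun n => H n ⊓ B) (fun n => (hH n).inter hBc)
      (fun i j hij => inf_le_inf_right _ (hm hij)) (fun n => inf_le_right)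
    have hHn : ∀ n, H n ≤ Subgroup.normalizer (B : Set G) := fun n =>
      le_norm_of (fun h hh z hz => hn h (hHA n hh) z hz)
    have hcoe : ∀ n, ((H n ⊔ B : Subgroup G) : Set G) = (H n : Set G) * (B : Set G) := fun n =>
      Subgroup.coe_mul_of_left_le_normalizer_right _ _ (hHn n)
    have hCc : ∀ n, IsClosed ((H n ⊔ B : Subgroup G) : Set G) := by
      intro n
      rw [hcoe n]
      exact ((hH n).isCompact.mul hBc.isCompact).isClosed
    -- stabilisation of H n ⊔ B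
    have hst : ∃ n, ∀ m, n ≤ m → H n ⊔ B = H m ⊔ B := by
      by_cases hall : ∀ n, H n ≤ B
      · exact ⟨0, fun m _ => by rw [sup_eq_right.2 (hall 0), sup_eq_right.2 (hall m)]⟩
      push Not at hall
      obtain ⟨n0, hn0⟩ := hall
      obtain ⟨x, hx, hxB⟩ := SetLike.not_le_iff_exists.1 hn0
      obtain ⟨V₀, hV₀n, hV₀o, hV₀⟩ := exists_sep hBc hxB
      haveI := finite_quot hV₀o
      have hxV : x ∉ B ⊔ V₀ := by
        intro h
        have h' : x ∈ ((B ⊔ V₀ : Subgroup G) : Set G) := h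
        rw [Subgroup.mul_normal] at h'
        obtain ⟨b, hb, v, hv, rfl⟩ := h'
        apply hV₀ b hb
        show b⁻¹ * (b * v) ∈ V₀
        rw [inv_mul_cancel_left]; exact hv
      have hkey : ∀ m, n0 ≤ m → A ⊓ V₀ ≤ H m ⊔ B := fun m hnm =>
        between hp hA hBc hBA hn ht hgen hpro (H m ⊔ B) (hCc m) le_sup_right
          (sup_le (hHA m) hBA) V₀ hV₀o x (le_sup_left (a := H m) (hm hnm hx)) hxV
      have h2 : ∃ n, ∀ m, n ≤ m → (H n).map (QuotientGroup.mk' V₀) = (H m).map (QuotientGroup.mk' V₀) :=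
        (wellFoundedGT_iff_monotone_chain_condition (α := Subgroup (G ⧸ V₀))).1 inferInstance
          ⟨fun n => (H n).map (QuotientGroup.mk' V₀), fun i j hij => Subgroup.map_mono (hm hij)⟩
      obtain ⟨n2, hn2⟩ := h2
      refine ⟨max n0 n2, fun m hnm => le_antisymm (sup_le_sup_right (hm hnm) _) ?_⟩
      refine sup_le ?_ le_sup_right
      intro z hz
      have h4 : (H (max n0 n2)).map (QuotientGroup.mk' V₀) = (H m).map (QuotientGroup.mk' V₀) := by
        rw [← hn2 (max n0 n2) (le_max_right _ _), ← hn2 m ((le_max_right _ _).trans hnm)]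
      have h5 : QuotientGroup.mk' V₀ z ∈ (H (max n0 n2)).map (QuotientGroup.mk' V₀) := by
        rw [h4]; exact ⟨z, hz, rfl⟩
      obtain ⟨y, hy, hyz⟩ := h5
      have h6 : y⁻¹ * z ∈ V₀ := (QuotientGroup.eq (s := V₀)).1 hyz
      have h7 : y⁻¹ * z ∈ A := A.mul_mem (A.inv_mem (hHA _ hy)) (hHA _ hz)
      have h8 := (H (max n0 n2) ⊔ B).mul_mem (le_sup_left (a := H (max n0 n2)) (b := B) hy)
        (hkey (max n0 n2) (le_max_left _ _) ⟨h7, h6⟩)
      rwa [mul_inv_cancel_left] at h8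
    obtain ⟨n3, hn3⟩ := hst
    refine ⟨max n1 n3, fun m hnm => le_antisymm (hm hnm) ?_⟩
    intro z hz
    have h4 : H (max n1 n3) ⊔ B = H m ⊔ B := by
      rw [← hn3 (max n1 n3) (le_max_right _ _), ← hn3 m ((le_max_right _ _).trans hnm)]
    have h5 : z ∈ ((H (max n1 n3) ⊔ B : Subgroup G) : Set G) := by
      rw [h4]; exact le_sup_left (a := H m) (b := B) hz
    rw [hcoe] at h5
    obtain ⟨y, hy, b, hb, rfl⟩ := h5
    have h6 : b ∈ H m := by
      have := (H m).mul_mem ((H m).inv_mem (hm hnm hy)) hz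
      rwa [inv_mul_cancel_left] at this
    have h7 : H (max n1 n3) ⊓ B = H m ⊓ B := by
      have e1 := hn1 (max n1 n3) (le_max_left _ _)
      have e2 := hn1 m ((le_max_left _ _).trans hnm)
      exact e1.symm.trans e2
    have h8 : b ∈ H (max n1 n3) ⊓ B := by rw [h7]; exact ⟨h6, hb⟩
    exact (H (max n1 n3)).mul_mem hy h8.1

theorem max_of_polyPro (h : PolyPro (⊤ : Subgroup G)) : MaxClosed G := fun H hH hm =>
  maxIn_of_polyPro h H hH hm (fun _ => le_top)

/-- **Soluble groups.** -/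
theorem soluble_iff [Group.IsSolvable G] : MaxClosed G ↔ PolyPro (⊤ : Subgroup G) :=
  ⟨fun h => polyPro_of_max h, max_of_polyPro⟩

end

end Pool.Agent.H61.PF
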