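import Mathlib
import Pool.Agent.H61.PF.Poly2

/-!
# Groups with a procyclic pro-`p` series are soluble
-/

namespace Pool.Agent.H61.PF

open Subgroup
open scoped Pointwise

section

variable {G : Type*} [Group G] [TopologicalSpace G] [IsTopologicalGroup G] [CompactSpace G]
  [T2Space G] [TotallyDisconnectedSpace G]

lemma comm_of_gen {A B : Subgroup G} {t : G} (hA : IsClosed (A : Set G))
    (hBc : IsClosed (B : Set G)) (hBA : B ≤ A)
    (hn : ∀ x ∈ A, ∀ y ∈ B, x * y * x⁻¹ ∈ B) (ht : t ∈ A)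
    (hgen : ∀ L : Subgroup G, IsClosed (L : Set G) → t ∈ L → B ≤ L → A ≤ L) :
    ∀ x ∈ A, ∀ y ∈ A, x * y * x⁻¹ * y⁻¹ ∈ B := by
  have hN : (B.subgroupOf A).Normal := by
    constructor
    rintro ⟨z, hz⟩ hzN ⟨g, hg⟩
    rw [Subgroup.mem_subgroupOf] at hzN ⊢
    exact hn g hg z hzN
  let π := QuotientGroup.mk' (B.subgroupOf A)
  have hπ : ∀ x y : A, π x * π y = π y * π x ↔ (x : G) * y * (x : G)⁻¹ * (y : G)⁻¹ ∈ B := by
    intro x y
    have h1 : π (x * y * x⁻¹ * y⁻¹) = 1 ↔ (x : G) * y * (x : G)⁻¹ * (y : G)⁻¹ ∈ B := by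
      have := QuotientGroup.eq_one_iff (N := B.subgroupOf A) (x * y * x⁻¹ * y⁻¹)
      exact this
    rw [← h1, map_mul, map_mul, map_mul, map_inv, map_inv, mul_inv_eq_one, mul_inv_eq_iff_eq_mul]
  have key : ∀ x : A, (∀ b : A, (b : G) ∈ B → π x * π b = π b * π x) →
      π x * π ⟨t, ht⟩ = π ⟨t, ht⟩ * π x → ∀ y : A, π x * π y = π y * π x := by
    intro x hxb hxt y
    let L : Subgroup A := (centralizer {π x}).comap π
    have hLc : IsClosed (L : Set A) := by
      have : (L : Set A) = {y : A | (x : G) * y * (x : G)⁻¹ * (y : G)⁻¹ ∈ B} := by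
        ext y
        show π y ∈ centralizer {π x} ↔ _
        rw [Subgroup.mem_centralizer_singleton_iff]
        rw [Set.mem_setOf_eq, ← hπ]
        exact eq_comm
      rw [this]
      exact hBc.preimage (by fun_prop)
    have hLm : IsClosed ((L.map A.subtype : Subgroup G) : Set G) := by
      have : ((L.map A.subtype : Subgroup G) : Set G) = Subtype.val '' (L : Set A) := rfl
      rw [this]
      exact hA.isClosedEmbedding_subtypeVal.isClosedMap _ hLc
    have h1 : A ≤ L.map A.subtype := by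
      apply hgen _ hLm
      · refine ⟨⟨t, ht⟩, ?_, rfl⟩
        show π ⟨t, ht⟩ ∈ centralizer {π x}
        rw [Subgroup.mem_centralizer_singleton_iff]
        exact hxt.symm
      · intro b hb
        refine ⟨⟨b, hBA hb⟩, ?_, rfl⟩
        show π ⟨b, hBA hb⟩ ∈ centralizer {π x}
        rw [Subgroup.mem_centralizer_singleton_iff]
        exact (hxb ⟨b, hBA hb⟩ hb).symm
    obtain ⟨z, hz, hzy⟩ := h1 y.2
    have : z = y := Subtype.ext hzy
    rw [this] at hz
    have h2 : π y ∈ centralizer {π x} := hz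
    rw [Subgroup.mem_centralizer_singleton_iff] at h2
    exact h2.symm
  have hb1 : ∀ b : A, (b : G) ∈ B → π b = 1 := fun b hb =>
    (QuotientGroup.eq_one_iff (N := B.subgroupOf A) b).2 hb
  have hB : ∀ x : A, ∀ b : A, (b : G) ∈ B → π x * π b = π b * π x := by
    intro x b hb
    rw [hb1 b hb, mul_one, one_mul]
  have h1 : ∀ y : A, π ⟨t, ht⟩ * π y = π y * π ⟨t, ht⟩ := key ⟨t, ht⟩ (hB _) rfl
  intro x hx y hy
  exact (hπ ⟨x, hx⟩ ⟨y, hy⟩).1 (key ⟨x, hx⟩ (hB _) (h1 ⟨x, hx⟩).symm ⟨y, hy⟩)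

lemma PolyPro.solvable {A : Subgroup G} (h : PolyPro A) : Group.IsSolvable A := by
  induction h with
  | bot => infer_instance
  | step A B p t hp hB hA hBA hn ht hgen hpro ih =>
    have hc := comm_of_gen hA hB.closed hBA hn ht hgen
    have hN : (B.subgroupOf A).Normal := by
      constructor
      rintro ⟨z, hz⟩ hzN ⟨g, hg⟩
      rw [Subgroup.mem_subgroupOf] at hzN ⊢
      exact hn g hg z hzN
    have h1 : Group.IsSolvable (B.subgroupOf A) :=
      Group.isSolvable_of_surjective (f := (Subgroup.subgroupOfEquivOfLe hBA).symm.toMonoidHom)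
        (Subgroup.subgroupOfEquivOfLe hBA).symm.surjective
    have h2 : Group.IsSolvable (A ⧸ B.subgroupOf A) := by
      have hcomm : ∀ a b : A ⧸ B.subgroupOf A, a * b = b * a := by
        intro a b
        obtain ⟨x, rfl⟩ := QuotientGroup.mk'_surjective _ a
        obtain ⟨y, rfl⟩ := QuotientGroup.mk'_surjective _ b
        rw [← map_mul, ← map_mul]
        refine (QuotientGroup.eq (s := B.subgroupOf A)).2 ?_
        rw [Subgroup.mem_subgroupOf]
        show ((x : G) * y)⁻¹ * ((y : G) * x) ∈ B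
        have h3 := hc _ (A.inv_mem y.2) _ (A.inv_mem x.2)
        have e : ((x : G) * y)⁻¹ * ((y : G) * x) = (y : G)⁻¹ * (x : G)⁻¹ * ((y : G)⁻¹)⁻¹ * ((x : G)⁻¹)⁻¹ := by
          group
        rw [e]; exact h3
      exact Group.isSolvable_of_comm hcomm
    exact (Group.isSolvable_iff_subgroup_quotient (B.subgroupOf A)).2 ⟨h1, h2⟩

/-- **Soluble groups.** -/
theorem soluble_max_iff : (Group.IsSolvable G ∧ MaxClosed G) ↔ PolyPro (⊤ : Subgroup G) := by
  constructor
  · rintro ⟨h1, h2⟩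
    exact polyPro_of_max h2
  · intro h
    refine ⟨?_, max_of_polyPro h⟩
    haveI := h.solvable
    exact Group.isSolvable_of_surjective (f := (Subgroup.topEquiv (G := G)).toMonoidHom)
      (Subgroup.topEquiv (G := G)).surjective

end

end Pool.Agent.H61.PF
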